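import Mathlib

/-!
# OD LemG.
PROOF. Prime by prime (`q`). If a factor is `0` clear. `v_q(M!) = ∑_{i≥1} f_i`, `f_i = M / q^i`. Let
`c_i` = number of `h < M` with `q^i ∣ A - h`, `c_i ≥ f_i` (a range of length `M`), `s_i` = number of
`h ∈ S` with `q^i ∣ A - h`, `s_i ≤ min(card S, c_i)`.  `v_q` of the product over the complement of `S` is
`≥ ∑_{i, q^i ≤ M} (c_i - s_i) ≥ ∑ max(f_i - card S, 0)`, and `v_q(∏_{k<card S} lcmUpto (M/(k+1))) =
∑_k #{i ≥ 1 : q^i ≤ M/(k+1)} = ∑_i min(card S, f_i)` (`Nat.factorization_lcmUpto`: `Nat.log q n`).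
-/

namespace H22OD

open Finset

/-- the number of `h < M`, `h ∉ S`, with `Q ∣ A - h` is at least `M / Q - card S` -/
private lemma lemG_card (M Q : ℕ) (hQ : 0 < Q) (A : ℤ) (S : Finset ℕ) :
    M / Q - S.card ≤ ((range M \ S).filter fun h : ℕ => (Q : ℤ) ∣ A - (h : ℤ)).card := by
  classical
  have hQZ : (0 : ℤ) < (Q : ℤ) := by exact_mod_cast hQ
  obtain ⟨r, hr⟩ : ∃ r : ℕ, (r : ℤ) = A % (Q : ℤ) :=
    ⟨(A % (Q : ℤ)).toNat, Int.toNat_of_nonneg (Int.emod_nonneg _ hQZ.ne')⟩
  have hrQ : r < Q := by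
    have := Int.emod_lt_of_pos A hQZ
    rw [← hr] at this
    exact_mod_cast this
  have h1 : M / Q ≤ ((range M).filter fun h : ℕ => (Q : ℤ) ∣ A - (h : ℤ)).card := by
    calc M / Q = (range (M / Q)).card := (card_range _).symm
      _ ≤ _ := by
        refine card_le_card_of_injOn (fun j => j * Q + r) ?_ ?_
        · intro j hj
          have hj' : j < M / Q := by simpa using hj
          have h2 : (j + 1) * Q ≤ M := le_trans (Nat.mul_le_mul_right _ hj') (Nat.div_mul_le_self M Q)
          simp only [coe_filter, mem_range, Set.mem_ofPred_eq]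
          refine ⟨by nlinarith, ?_⟩
          have h3 : A = (Q : ℤ) * (A / (Q : ℤ)) + (r : ℤ) := by
            rw [hr]; exact (Int.mul_ediv_add_emod A (Q : ℤ)).symm
          refine ⟨A / (Q : ℤ) - (j : ℤ), ?_⟩
          push_cast
          linear_combination h3
        · intro a _ b _ hab
          have : a * Q = b * Q := by simpa using hab
          exact Nat.eq_of_mul_eq_mul_right hQ this
  have h2 : ((range M).filter fun h : ℕ => (Q : ℤ) ∣ A - (h : ℤ)).card ≤
      ((range M \ S).filter fun h : ℕ => (Q : ℤ) ∣ A - (h : ℤ)).card + S.card := by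
    refine le_trans (card_le_card ?_) (card_union_le _ _)
    intro h hh
    simp only [mem_filter, mem_range, mem_union, mem_sdiff] at hh ⊢
    tauto
  omega

theorem lemG (M : ℕ) (A : ℤ) (S : Finset ℕ) (hS : S ⊆ range M) :
    ((M.factorial : ℕ) : ℤ) ∣ (∏ k ∈ range S.card, (Nat.lcmUpto (M / (k + 1)) : ℤ)) *
      ∏ h ∈ range M \ S, (A - (h : ℤ)) := by
  classical
  by_cases h0 : ∃ h ∈ range M \ S, A - (h : ℤ) = 0
  · obtain ⟨h, hh, hz⟩ := h0
    rw [prod_eq_zero hh hz, mul_zero]
    exact dvd_zero _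
  push Not at h0
  have hnz : ∀ h ∈ range M \ S, (A - (h : ℤ)).natAbs ≠ 0 := fun h hh =>
    Int.natAbs_ne_zero.mpr (h0 h hh)
  have hL : ∀ k ∈ range S.card, Nat.lcmUpto (M / (k + 1)) ≠ 0 := fun k _ => Nat.lcmUpto_ne_zero _
  have hPL : (∏ k ∈ range S.card, Nat.lcmUpto (M / (k + 1))) ≠ 0 := prod_ne_zero_iff.mpr hL
  have hPA : (∏ h ∈ range M \ S, (A - (h : ℤ)).natAbs) ≠ 0 := prod_ne_zero_iff.mpr hnz
  rw [← Int.natAbs_dvd_natAbs, Int.natAbs_mul, Int.natAbs_natCast]
  have e1 : (∏ k ∈ range S.card, (Nat.lcmUpto (M / (k + 1)) : ℤ)).natAbs =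
      ∏ k ∈ range S.card, Nat.lcmUpto (M / (k + 1)) := by
    rw [← Nat.cast_prod, Int.natAbs_natCast]
  have e2 : (∏ h ∈ range M \ S, (A - (h : ℤ))).natAbs = ∏ h ∈ range M \ S, (A - (h : ℤ)).natAbs :=
    map_prod Int.natAbsHom _ _
  rw [e1, e2, ← Nat.factorization_prime_le_iff_dvd (Nat.factorial_ne_zero M) (mul_ne_zero hPL hPA)]
  intro q hq
  rw [Nat.factorization_mul hPL hPA, Finsupp.add_apply, Nat.factorization_prod_apply hL,
    Nat.factorization_prod_apply hnz, Nat.factorization_factorial hq (Nat.lt_succ_self (Nat.log q M))]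
  -- the part of the `lcmUpto`
  have hA : ∑ k ∈ range S.card, (Nat.lcmUpto (M / (k + 1))).factorization q =
      ∑ i ∈ Ico 1 (Nat.log q M).succ, min S.card (M / q ^ i) := by
    have h1 : ∀ k ∈ range S.card, (Nat.lcmUpto (M / (k + 1))).factorization q =
        ∑ i ∈ Ico 1 (Nat.log q M).succ, if k < M / q ^ i then 1 else 0 := by
      intro k _
      rw [Nat.factorization_lcmUpto _ hq, ← card_filter]
      have : (Ico 1 (Nat.log q M).succ).filter (fun i => k < M / q ^ i) =
          Ico 1 (Nat.log q (M / (k + 1)) + 1) := by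
        ext i
        have hqi : 0 < q ^ i := pow_pos hq.pos i
        simp only [mem_filter, mem_Ico]
        have hk1 : k < M / q ^ i ↔ (k + 1) * q ^ i ≤ M := by
          rw [← Nat.succ_le_iff, Nat.le_div_iff_mul_le hqi]
        constructor
        · rintro ⟨⟨h1, h2⟩, h3⟩
          refine ⟨h1, Nat.lt_succ_of_le ?_⟩
          apply Nat.le_log_of_pow_le hq.one_lt
          rw [Nat.le_div_iff_mul_le (Nat.succ_pos k), mul_comm]
          exact hk1.mp h3
        · rintro ⟨h1, h2⟩
          have h4 : M / (k + 1) ≠ 0 := by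
            intro hz
            rw [hz, Nat.log_zero_right] at h2
            omega
          have h3 : q ^ i ≤ M / (k + 1) :=
            Nat.pow_le_of_le_log h4 (Nat.lt_succ_iff.mp h2)
          rw [Nat.le_div_iff_mul_le (Nat.succ_pos k), mul_comm] at h3
          refine ⟨⟨h1, Nat.lt_succ_of_le ?_⟩, hk1.mpr h3⟩
          exact le_trans (Nat.lt_succ_iff.mp h2) (Nat.log_mono_right (Nat.div_le_self _ _))
      rw [this, Nat.card_Ico]
      rfl
    rw [sum_congr rfl h1, sum_comm]
    refine sum_congr rfl fun i _ => ?_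
    rw [← card_filter]
    have : (range S.card).filter (fun k => k < M / q ^ i) = range (min S.card (M / q ^ i)) := by
      ext k
      simp [mem_filter, mem_range]
    rw [this, card_range]
  -- the part of the product
  have hB : ∑ i ∈ Ico 1 (Nat.log q M).succ, (M / q ^ i - S.card) ≤
      ∑ h ∈ range M \ S, ((A - (h : ℤ)).natAbs).factorization q := by
    calc ∑ i ∈ Ico 1 (Nat.log q M).succ, (M / q ^ i - S.card)
        ≤ ∑ i ∈ Ico 1 (Nat.log q M).succ,
          ((range M \ S).filter fun h : ℕ => ((q ^ i : ℕ) : ℤ) ∣ A - (h : ℤ)).card :=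
          sum_le_sum fun i _ => lemG_card M (q ^ i) (pow_pos hq.pos i) A S
      _ = ∑ h ∈ range M \ S, ((Ico 1 (Nat.log q M).succ).filter fun i =>
            ((q ^ i : ℕ) : ℤ) ∣ A - (h : ℤ)).card := by
          simp only [card_filter]
          exact sum_comm
      _ ≤ _ := by
          refine sum_le_sum fun h hh => ?_
          have hs : ((Ico 1 (Nat.log q M).succ).filter fun i => ((q ^ i : ℕ) : ℤ) ∣ A - (h : ℤ)) ⊆
              Ico 1 (((A - (h : ℤ)).natAbs).factorization q + 1) := by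
            intro i hi
            simp only [mem_filter, mem_Ico] at hi ⊢
            refine ⟨hi.1.1, Nat.lt_succ_of_le ?_⟩
            rw [← hq.pow_dvd_iff_le_factorization (hnz h hh)]
            exact Int.natCast_dvd.mp hi.2
          have := card_le_card hs
          rw [Nat.card_Ico] at this
          omega
  rw [hA]
  calc ∑ i ∈ Ico 1 (Nat.log q M).succ, M / q ^ i
      = ∑ i ∈ Ico 1 (Nat.log q M).succ, (min S.card (M / q ^ i) + (M / q ^ i - S.card)) := by
        refine sum_congr rfl fun i _ => ?_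
        omega
    _ = ∑ i ∈ Ico 1 (Nat.log q M).succ, min S.card (M / q ^ i) +
        ∑ i ∈ Ico 1 (Nat.log q M).succ, (M / q ^ i - S.card) := sum_add_distrib
    _ ≤ _ := Nat.add_le_add_left hB _

end H22OD
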