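import Mathlib

/-!
# OD Corank.
PROOF. Let `r = κ`. Choose `κ` linearly independent vectors in the kernel mod `p`, extend to a basis of
`(ZMod p)^ι`; lift the matrix of this basis (columns) to an integer matrix `U`; `det U` is prime to `p`;
`κ` columns of `M U` are divisible by `p`, so `p^κ ∣ det (M U) = det M det U`.  (Or: Smith normal form.)
-/

namespace H22OD

private theorem Corank_core {ι : Type*} [Fintype ι] [DecidableEq ι] (p : ℕ) [Fact p.Prime]
    (M : Matrix ι ι ℤ) (b : Module.Basis ι (ZMod p) (ι → ZMod p)) (S : Finset ι)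
    (hS : ∀ j ∈ S, b j ∈ LinearMap.ker (M.map (Int.cast : ℤ → ZMod p)).mulVecLin) :
    (p : ℤ) ^ S.card ∣ M.det := by
  classical
  -- the lift of the basis
  set U : Matrix ι ι ℤ := fun i j => ((b j i).val : ℤ) with hU
  have hUmap : U.map (Int.cast : ℤ → ZMod p) = (Pi.basisFun (ZMod p) ι).toMatrix b := by
    ext i j
    rw [Matrix.map_apply, Module.Basis.toMatrix_apply, Pi.basisFun_repr, hU]
    simp
  have hUdet : ((U.det : ℤ) : ZMod p) ≠ 0 := by
    have h1 : ((U.det : ℤ) : ZMod p) = (U.map (Int.cast : ℤ → ZMod p)).det :=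
      RingHom.map_det (Int.castRingHom (ZMod p)) U
    rw [h1, hUmap, ← Module.Basis.det_apply]
    exact ((Pi.basisFun (ZMod p) ι).isUnit_det b).ne_zero
  -- columns in `S` are divisible by `p`
  have hcol : ∀ i, ∀ j ∈ S, (p : ℤ) ∣ (M * U) i j := by
    intro i j hj
    rw [← ZMod.intCast_zmod_eq_zero_iff_dvd]
    have h1 := hS j hj
    rw [LinearMap.mem_ker] at h1
    have h2 := congrFun h1 i
    rw [Matrix.mulVecLin_apply] at h2
    have h3 : (((M * U) i j : ℤ) : ZMod p)
        = ((M.map (Int.cast : ℤ → ZMod p)).mulVec (b j)) i := by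
      rw [Matrix.mul_apply, Matrix.mulVec, dotProduct]
      push_cast
      refine Finset.sum_congr rfl fun k _ => ?_
      rw [Matrix.map_apply, hU]
      simp
    rw [h3, h2]
    rfl
  have hN : ∃ N : Matrix ι ι ℤ, M * U = Matrix.of fun i j => (if j ∈ S then (p : ℤ) else 1) * N i j := by
    refine ⟨fun i j => if j ∈ S then (M * U) i j / p else (M * U) i j, ?_⟩
    ext i j
    rw [Matrix.of_apply]
    by_cases hj : j ∈ S
    · simp only [hj, if_true]
      exact (Int.mul_ediv_cancel' (hcol i j hj)).symm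
    · simp only [hj, if_false, one_mul]
  obtain ⟨N, hN⟩ := hN
  have hdet : M.det * U.det = (p : ℤ) ^ S.card * N.det := by
    rw [← Matrix.det_mul, hN, Matrix.det_mul_row]
    congr 1
    rw [Finset.prod_ite_mem, Finset.univ_inter, Finset.prod_const]
  have hcop : IsCoprime ((p : ℤ) ^ S.card) U.det := by
    refine IsCoprime.pow_left ?_
    rw [Prime.coprime_iff_not_dvd (Nat.prime_iff_prime_int.1 Fact.out)]
    intro h
    exact hUdet ((ZMod.intCast_zmod_eq_zero_iff_dvd _ p).2 h)
  exact hcop.dvd_of_dvd_mul_right (hdet ▸ Dvd.intro _ rfl)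

theorem corank {ι : Type*} [Fintype ι] [DecidableEq ι] (p : ℕ) [Fact p.Prime] (M : Matrix ι ι ℤ)
    (κ : ℕ) (h : κ ≤ Module.finrank (ZMod p)
      (LinearMap.ker (M.map (Int.cast : ℤ → ZMod p)).mulVecLin)) :
    (p : ℤ) ^ κ ∣ M.det := by
  classical
  set K := LinearMap.ker (M.map (Int.cast : ℤ → ZMod p)).mulVecLin with hK
  obtain ⟨C, hC⟩ := Submodule.exists_isCompl K
  set bK := Module.finBasis (ZMod p) K
  set bC := Module.finBasis (ZMod p) C
  set b := (bK.prod bC).map (Submodule.prodEquivOfIsCompl K C hC)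
  have hcard : Fintype.card (Fin (Module.finrank (ZMod p) K) ⊕ Fin (Module.finrank (ZMod p) C))
      = Fintype.card ι := by
    rw [← Module.finrank_eq_card_basis b, Module.finrank_fintype_fun_eq_card]
  set e := Fintype.equivOfCardEq hcard
  have h1 := Corank_core p M (b.reindex e)
    (Finset.univ.image fun i : Fin (Module.finrank (ZMod p) K) => e (Sum.inl i)) (by
      intro j hj
      obtain ⟨i, _, rfl⟩ := Finset.mem_image.1 hj
      rw [Module.Basis.reindex_apply, Equiv.symm_apply_apply]
      have h2 : b (Sum.inl i) = (bK i : ι → ZMod p) := by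
        simp [b]
      rw [h2]
      exact (bK i).2)
  have hinj : Function.Injective
      fun i : Fin (Module.finrank (ZMod p) K) => e (Sum.inl i) := fun i j hij =>
    Sum.inl_injective (e.injective hij)
  rw [Finset.card_image_of_injective _ hinj, Finset.card_univ, Fintype.card_fin] at h1
  exact (pow_dvd_pow _ h).trans h1

end H22OD
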