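import Mathlib

/-!
# Project OD: definitions

`Li n s = Li_{-n}(s)`, `Sym s`: the family `s` is inverse symmetric; `Mat F w x` is the matrix of the
conditions `∑_e C_e(a+y) y^e + ∑_c B_c(a+y) R_{ca}(cy) = O(y^(w^3))`, `a < w x`.
-/

namespace H22OD

open Polynomial Finset

/-- `A_n`, the numerator of `Li_{-n}` (denominator `(1-X)^(n+1)`) -/
noncomputable def eu : ℕ → ℤ[X]
  | 0 => X
  | n + 1 => X * (1 - X) * derivative (eu n) + ((n + 1 : ℕ) : ℤ[X]) * X * eu n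

/-- `Li_{-n}(s)` -/
noncomputable def Li {F : Type*} [Field F] (n : ℕ) (s : F) : F :=
  aeval s (eu n) / (1 - s) ^ (n + 1)

/-- the family `s` is inverse symmetric -/
def Sym {F : Type*} [Field F] {d : ℕ} (s : Fin d → F) : Prop :=
  ∏ k, (X - C (s k)) = ∏ k, (X - C (s k)⁻¹)

/-- the weights `0, 0, 6, -12, 6, 0` -/
def wt (h : ℕ) : ℤ := if h % 6 = 2 then 6 else if h % 6 = 3 then -12 else if h % 6 = 4 then 6 else 0

section
variable (F : Type) [Field F]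

/-- `binom(X, N)` -/
noncomputable def bn (N : ℕ) : F[X] :=
  C ((N.factorial : F)⁻¹) * ∏ i ∈ range N, (X - C (i : F))

/-- the basis of polynomials: `binom(X,x)^(i / x) binom(X, i % x)`, of degree `i` -/
noncomputable def PB (x i : ℕ) : F[X] := bn F x ^ (i / x) * bn F (i % x)

/-- `Pi_c(a+y) R_{ca}(cy)`, `Pi_c = binom(6cX, 6cm)`, `R_b(z) = ∑_{0<h<6b} w_h / (6z+h)` -/
noncomputable def RR (m c a : ℕ) : F[X] :=
  C (((6 * c * m).factorial : F)⁻¹) * ∑ h ∈ Ioo 0 (6 * c * a),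
    C ((wt h : ℤ) : F) * ∏ k ∈ (range (6 * c * m)).erase (6 * c * a - h),
      (C ((6 * c : ℕ) : F) * (X + C (a : F)) - C (k : F))

/-- columns: `C_e`, `e < w`, of degree `< n = (w^3/4) x`; `B'_(c+1)`, `c < w`, of degree
`< n - 6 (c+1) m`, `m = w x` -/
abbrev Col (w x : ℕ) : Type :=
  (Fin w × Fin (w ^ 3 / 4 * x)) ⊕ (Σ c : Fin w, Fin (w ^ 3 / 4 * x - 6 * (c.val + 1) * (w * x)))

/-- rows: nodes `a < w x`, coefficients of `y^i`, `i < w^3` -/
abbrev Row (w x : ℕ) : Type := Fin (w * x) × Fin (w ^ 3)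

/-- the matrix -/
noncomputable def Mat (w x : ℕ) : Matrix (Row w x) (Col w x) F := fun r c =>
  match c with
  | Sum.inl (e, i) => ((PB F x i).comp (X + C ((r.1.val : ℕ) : F)) * X ^ e.val).coeff r.2.val
  | Sum.inr ⟨c, i⟩ =>
    ((PB F x i).comp (X + C ((r.1.val : ℕ) : F)) * RR F (w * x) (c.val + 1) r.1.val).coeff r.2.val

end

/-- the common denominator of the entries of `Mat ℚ w x` -/
def Dn (w x : ℕ) : ℕ :=
  Nat.lcmUpto x ^ (w ^ 3) * ∏ k ∈ range (w ^ 3), Nat.lcmUpto (6 * w * (w * x) / (k + 1))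

/-- `p` divides the numerators of all `B_(p-j)`, `j` odd, `w < j ≤ w^3` -/
def Ew (w p : ℕ) : Prop :=
  ∀ j : ℕ, Odd j → w < j → j ≤ w ^ 3 → (p : ℤ) ∣ (_root_.bernoulli (p - j)).num

/-- `1` on `(p/3,p/2)`, `-1` on `(p/2,2p/3)` -/
def ep (p : ℕ) (k : ZMod p) : ZMod p :=
  if p < 3 * k.val ∧ 2 * k.val < p then 1
  else if p < 2 * k.val ∧ 3 * k.val < 2 * p then -1 else 0

/-- `Lam(z) = (z^(p-1) - 1) ∑_k ep(k) / (z - k)` -/
noncomputable def Lam (p : ℕ) [Fact p.Prime] : (ZMod p)[X] :=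
  ∑ j ∈ range (p - 1), C (∑ k : ZMod p, ep p k * k ^ (p - 2 - j)) * X ^ j

/-- density zero, in the form of dyadic sums -/
def DensZero (S : Set ℕ) : Prop :=
  ∀ ε : ℝ, 0 < ε → ∃ X₀ : ℕ, ∀ N : ℕ, X₀ ≤ N → ∀ T : Finset ℕ,
    (∀ p ∈ T, p.Prime ∧ N < p ∧ p ≤ 2 * N ∧ p ∈ S) → ∑ p ∈ T, Real.log p ≤ ε * N

/-- there is a family of `d` elements, not `0`, not `1`, of a field of characteristic `p`, which is
not inverse symmetric and satisfies the relations of Kummer (up to `n + e < p`) -/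
def Bad (d e p : ℕ) : Prop :=
  ∃ (Ω : Type) (_ : Field Ω) (_ : CharP Ω p) (s : Fin d → Ω), (∀ k, s k ≠ 0 ∧ s k ≠ 1) ∧
    (∀ n : ℕ, Even n → 2 ≤ n → n + e < p → ¬ (p : ℤ) ∣ (_root_.bernoulli (p - 1 - n)).num →
      ∑ k, Li n (s k) = 0) ∧ ¬ Sym s

end H22OD
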