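import Pool.Agent.H22.OD.Defs

/-!
# OD DenSize.
PROOF. `log lcmUpto n = psi n ≤ (log 4 + 4) n` (`Chebyshev.psi_eq_log_lcmUpto`,
`Chebyshev.psi_le_const_mul_self`).  `log Dn ≤ w^3 * 6 x + 6 * 6 w^2 x ∑_{k<w^3} 1/(k+1)`, harmonic sum
`≤ 1 + 3 log w ≤ 3 (1 + log w)`, and `w^2 ≤ w^3`.
-/

namespace H22OD

open Finset Polynomial

private theorem log_lcm_le (n : ℕ) (y : ℝ) (h : (n : ℝ) ≤ y) :
    Real.log (Nat.lcmUpto n) ≤ (Real.log 4 + 4) * y := by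
  rw [← Chebyshev.psi_eq_log_lcmUpto]
  have h1 := Chebyshev.psi_le_const_mul_self (x := (n : ℝ)) (Nat.cast_nonneg n)
  have h2 : (0 : ℝ) ≤ Real.log 4 := Real.log_nonneg (by norm_num)
  nlinarith

theorem den_size : ∃ C₀ : ℝ, 0 < C₀ ∧ ∀ w : ℕ, 4 ≤ w → ∀ x : ℕ, 1 ≤ x →
    Real.log (Dn w x) ≤ C₀ * w ^ 3 * (1 + Real.log w) * x := by
  have hl4 : (0 : ℝ) ≤ Real.log 4 := Real.log_nonneg (by norm_num)
  refine ⟨19 * (Real.log 4 + 4), by linarith, fun w hw x hx => ?_⟩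
  set c : ℝ := Real.log 4 + 4 with hc
  have hc0 : 0 < c := by rw [hc]; linarith
  have hw1 : (1 : ℝ) ≤ w := by exact_mod_cast (by omega : 1 ≤ w)
  have hx0 : (0 : ℝ) ≤ x := Nat.cast_nonneg x
  have hlw : (0 : ℝ) ≤ Real.log w := Real.log_nonneg hw1
  have hne : ∀ n : ℕ, ((Nat.lcmUpto n : ℕ) : ℝ) ≠ 0 := fun n => by
    exact_mod_cast Nat.lcmUpto_ne_zero n
  have h1 : Real.log (Dn w x) = (w ^ 3 : ℕ) * Real.log (Nat.lcmUpto x) +
      ∑ k ∈ range (w ^ 3), Real.log (Nat.lcmUpto (6 * w * (w * x) / (k + 1))) := by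
    rw [Dn, Nat.cast_mul, Real.log_mul (by
      rw [Nat.cast_pow]
      exact pow_ne_zero _ (hne x)) (by
      rw [Nat.cast_prod]
      exact prod_ne_zero_iff.2 fun k _ => hne _), Nat.cast_pow, Real.log_pow, Nat.cast_prod,
      Real.log_prod (fun k _ => hne _)]
  have h2 : ∑ k ∈ range (w ^ 3), Real.log (Nat.lcmUpto (6 * w * (w * x) / (k + 1))) ≤
      ∑ k ∈ range (w ^ 3), c * (6 * w ^ 2 * x) * ((k + 1 : ℕ) : ℝ)⁻¹ := by
    refine sum_le_sum fun k _ => ?_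
    have h3 : (((6 * w * (w * x) / (k + 1) : ℕ)) : ℝ) ≤
        (6 * (w : ℝ) ^ 2 * x) * ((k + 1 : ℕ) : ℝ)⁻¹ := by
      have h4 := Nat.cast_div_le (α := ℝ) (m := 6 * w * (w * x)) (n := k + 1)
      refine h4.trans (le_of_eq ?_)
      push_cast
      rw [div_eq_mul_inv]
      ring
    refine (log_lcm_le _ _ h3).trans (le_of_eq ?_)
    ring
  have h5 : ∑ k ∈ range (w ^ 3), ((k + 1 : ℕ) : ℝ)⁻¹ ≤ 3 * (1 + Real.log w) := by
    have h6 := harmonic_le_one_add_log (w ^ 3)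
    have h7 : ((harmonic (w ^ 3) : ℚ) : ℝ) = ∑ k ∈ range (w ^ 3), ((k + 1 : ℕ) : ℝ)⁻¹ := by
      rw [harmonic]
      push_cast
      rfl
    rw [← h7]
    refine h6.trans ?_
    rw [Nat.cast_pow, Real.log_pow]
    push_cast
    linarith
  have h8 : Real.log (Nat.lcmUpto x) ≤ c * x := log_lcm_le x x le_rfl
  have h9 : (0 : ℝ) ≤ c * (6 * w ^ 2 * x) := by positivity
  have h10 : Real.log (Dn w x) ≤ (w : ℝ) ^ 3 * (c * x) +
      c * (6 * w ^ 2 * x) * (3 * (1 + Real.log w)) := by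
    rw [h1]
    have h11 : ((w ^ 3 : ℕ) : ℝ) = (w : ℝ) ^ 3 := by push_cast; rfl
    rw [h11]
    refine add_le_add (mul_le_mul_of_nonneg_left h8 (by positivity)) ?_
    refine h2.trans ?_
    rw [← mul_sum]
    exact mul_le_mul_of_nonneg_left h5 h9
  refine h10.trans ?_
  have h12 : (w : ℝ) ^ 2 ≤ w ^ 3 := by
    have := mul_le_mul_of_nonneg_left hw1 (by positivity : (0 : ℝ) ≤ (w : ℝ) ^ 2)
    nlinarith
  have h13 : c * (6 * w ^ 2 * x) * (3 * (1 + Real.log w)) ≤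
      18 * c * w ^ 3 * (1 + Real.log w) * x := by
    have h14 : (0 : ℝ) ≤ 18 * c * (1 + Real.log w) * x := by positivity
    nlinarith [mul_le_mul_of_nonneg_left h12 h14]
  have h15 : (w : ℝ) ^ 3 * (c * x) ≤ c * w ^ 3 * (1 + Real.log w) * x := by
    have h16 : (0 : ℝ) ≤ c * w ^ 3 * x := by positivity
    nlinarith [mul_nonneg h16 hlw]
  linarith

end H22OD
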