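import Pool.Agent.H22.OD.Defs
import Pool.Agent.H45.KC.BernB

/-!
# OD LamLow.
PROOF. The coefficient is `∑_k ep k * k^(p-2-j)`.  `ep (-k) = - ep k`, so it is `0` for odd `j`
(`p - 2 - j` even).  `j` even, `j' = j + 1` odd, `w < j' ≤ w^3`: `k^(p-2-j) = k^(-j')`, `ep` is the
difference of the indicators of `TB p 2` and `TB p 1`, and `H45KC.bern_sum` with `b = 1`
(`TB p 1 = {t > p/2}`) and `b = 2` (`TB p 2` = `p/3 < t < p/2` or `2p/3 < t`), `β = 0` by `hE`: both
sums vanish.
-/

namespace H22OD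

open Finset Polynomial

private theorem lamlow_coeff (p : ℕ) [Fact p.Prime] (j : ℕ) (hj : j < p - 1) :
    (Lam p).coeff j = ∑ k : ZMod p, ep p k * k ^ (p - 2 - j) := by
  unfold Lam
  rw [finset_sum_coeff, Finset.sum_eq_single j]
  · rw [coeff_C_mul, coeff_X_pow, if_pos rfl, mul_one]
  · intro i _ hi
    rw [coeff_C_mul, coeff_X_pow, if_neg (Ne.symm hi), mul_zero]
  · intro h
    exact absurd (mem_range.2 hj) h

private theorem lamlow_ep_neg (p : ℕ) [Fact p.Prime] (hp3 : p ≠ 3) (k : ZMod p) :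
    ep p (-k) = - ep p k := by
  have hp : p.Prime := Fact.out
  rcases eq_or_ne k 0 with h0 | h0
  · subst h0
    simp [ep]
  · have hlt := ZMod.val_lt k
    have hpos : 0 < k.val := Nat.pos_of_ne_zero (fun h => h0 ((ZMod.val_eq_zero k).1 h))
    have hv : (-k).val = p - k.val := by
      rw [ZMod.neg_val, if_neg h0]
    unfold ep
    rw [hv]
    split_ifs <;> first | omega | simp

private theorem lamlow_ind (p : ℕ) [Fact p.Prime] (hp3 : p ≠ 3) (hp2 : p ≠ 2) (t : (ZMod p)ˣ) :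
    ep p (t : ZMod p) = (if t ∈ H45KC.TB p 2 then 1 else 0) - (if t ∈ H45KC.TB p 1 then 1 else 0) := by
  have hp : p.Prime := Fact.out
  have hlt := ZMod.val_lt (t : ZMod p)
  have hpos : 0 < (t : ZMod p).val := Nat.pos_of_ne_zero (fun h => t.ne_zero ((ZMod.val_eq_zero _).1 h))
  have h1 : t ∈ H45KC.TB p 1 ↔ p < 2 * (t : ZMod p).val := by
    simp only [H45KC.TB, mem_filter, mem_univ, true_and, one_mul]
    rw [Nat.mod_eq_of_lt hlt]
    constructor <;> intro h <;> omega
  have h2 : t ∈ H45KC.TB p 2 ↔ (p < 3 * (t : ZMod p).val ∧ 2 * (t : ZMod p).val < p) ∨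
      2 * p < 3 * (t : ZMod p).val := by
    simp only [H45KC.TB, mem_filter, mem_univ, true_and]
    have hne : 2 * (t : ZMod p).val ≠ p := by
      intro h
      have : 2 ∣ p := ⟨_, h.symm⟩
      exact hp2 ((Nat.prime_dvd_prime_iff_eq Nat.prime_two hp).1 this).symm
    rcases lt_or_ge (2 * (t : ZMod p).val) p with h | h
    · rw [Nat.mod_eq_of_lt h]
      constructor
      · intro h'
        left
        omega
      · rintro (h' | h')
        · omega
        · omega
    · have : 2 * (t : ZMod p).val % p = 2 * (t : ZMod p).val - p := by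
        rw [Nat.mod_eq_sub_mod h, Nat.mod_eq_of_lt (by omega)]
      rw [this]
      constructor
      · intro h'
        right
        omega
      · rintro (h' | h')
        · omega
        · omega
  have hne3 : 3 * (t : ZMod p).val ≠ 2 * p := by
    intro h
    have h3 : 3 ∣ 2 * p := ⟨_, h.symm⟩
    rcases (Nat.Prime.dvd_mul Nat.prime_three).1 h3 with h4 | h4
    · omega
    · exact hp3 ((Nat.prime_dvd_prime_iff_eq Nat.prime_three hp).1 h4).symm
  have hne : 2 * (t : ZMod p).val ≠ p := by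
    intro h
    have : 2 ∣ p := ⟨_, h.symm⟩
    exact hp2 ((Nat.prime_dvd_prime_iff_eq Nat.prime_two hp).1 this).symm
  simp only [h1, h2, ep]
  split_ifs <;> first | omega | simp

theorem lam_low (p : ℕ) [Fact p.Prime] (w : ℕ) (hw : 2 ≤ w) (hwe : Even w) (hp : w ^ 3 + 2 ≤ p)
    (hE : Ew w p) (j : ℕ) (h1 : w ≤ j) (h2 : j < w ^ 3) : (Lam p).coeff j = 0 := by
  have hpp : p.Prime := Fact.out
  have hw3 : 8 ≤ w ^ 3 := by
    calc 8 = 2 ^ 3 := by norm_num
      _ ≤ w ^ 3 := Nat.pow_le_pow_left hw 3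
  have hp2 : p ≠ 2 := by omega
  have hp3 : p ≠ 3 := by omega
  have hpodd : Odd p := hpp.odd_of_ne_two hp2
  rw [lamlow_coeff p j (by omega)]
  rcases Nat.even_or_odd j with hj | hj
  · -- `j` even
    have hj' : Odd (j + 1) := hj.add_one
    obtain ⟨β, hβ, hs⟩ := H45KC.bern_sum p (j + 1) hj' (by omega) (by omega)
    have hβ0 : β = 0 := hβ.2 (hE (j + 1) hj' (by omega) (by omega))
    have hs1 := hs 1 le_rfl (by omega)
    have hs2 := hs 2 (by omega) (by omega)
    rw [hβ0, mul_zero] at hs1 hs2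
    have hunits : ∑ k : ZMod p, ep p k * k ^ (p - 2 - j) =
        ∑ t : (ZMod p)ˣ, ep p (t : ZMod p) * (((t⁻¹ : (ZMod p)ˣ) : ZMod p)) ^ (j + 1) := by
      have h0 : ep p 0 = 0 := by simp [ep]
      have e1 : ∀ t : (ZMod p)ˣ, (t : ZMod p) ^ (p - 2 - j) =
          (((t⁻¹ : (ZMod p)ˣ) : ZMod p)) ^ (j + 1) := by
        intro t
        have h3 : (t : ZMod p) ^ (p - 2 - j) * (t : ZMod p) ^ (j + 1) = 1 := by
          rw [← pow_add, show p - 2 - j + (j + 1) = p - 1 by omega]
          exact ZMod.pow_card_sub_one_eq_one t.ne_zero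
        have h4 : (((t⁻¹ : (ZMod p)ˣ) : ZMod p)) ^ (j + 1) * (t : ZMod p) ^ (j + 1) = 1 := by
          rw [← mul_pow, Units.inv_mul, one_pow]
        exact mul_right_cancel₀ (pow_ne_zero (j + 1) t.ne_zero) (h3.trans h4.symm)
      rw [← Finset.add_sum_erase univ _ (mem_univ (0 : ZMod p)), h0, zero_mul, zero_add]
      symm
      refine Finset.sum_bij (fun t _ => (t : ZMod p)) ?_ ?_ ?_ ?_
      · intro t _
        exact mem_erase.2 ⟨t.ne_zero, mem_univ _⟩
      · intro a _ b _ h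
        exact Units.ext h
      · intro k hk
        exact ⟨Units.mk0 k (mem_erase.1 hk).1, mem_univ _, rfl⟩
      · intro t _
        rw [e1 t]
    rw [hunits]
    have e2 : ∀ t : (ZMod p)ˣ, ep p (t : ZMod p) * (((t⁻¹ : (ZMod p)ˣ) : ZMod p)) ^ (j + 1) =
        (if t ∈ H45KC.TB p 2 then (((t⁻¹ : (ZMod p)ˣ) : ZMod p)) ^ (j + 1) else 0) -
          (if t ∈ H45KC.TB p 1 then (((t⁻¹ : (ZMod p)ˣ) : ZMod p)) ^ (j + 1) else 0) := by
      intro t
      rw [lamlow_ind p hp3 hp2 t, sub_mul, ite_mul, ite_mul, one_mul, zero_mul]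
    rw [Finset.sum_congr rfl (fun t _ => e2 t), Finset.sum_sub_distrib, Finset.sum_ite_mem,
      Finset.sum_ite_mem, univ_inter, univ_inter, hs1, hs2, sub_zero]
  · -- `j` odd
    have he : Even (p - 2 - j) := by
      rcases hpodd with ⟨a, ha⟩
      rcases hj with ⟨b, hb⟩
      exact ⟨a - 1 - b, by omega⟩
    have h3 : ∑ k : ZMod p, ep p k * k ^ (p - 2 - j) = - ∑ k : ZMod p, ep p k * k ^ (p - 2 - j) := by
      conv_lhs => rw [← Equiv.sum_comp (Equiv.neg (ZMod p))]
      rw [← Finset.sum_neg_distrib]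
      refine Finset.sum_congr rfl fun k _ => ?_
      rw [Equiv.neg_apply, lamlow_ep_neg p hp3 k, he.neg_pow, neg_mul]
    have h4 : (2 : ZMod p) * ∑ k : ZMod p, ep p k * k ^ (p - 2 - j) = 0 := by
      linear_combination h3
    rcases mul_eq_zero.1 h4 with h5 | h5
    · exfalso
      have h6 : ((2 : ℕ) : ZMod p) = 0 := by exact_mod_cast h5
      rw [ZMod.natCast_eq_zero_iff] at h6
      have := Nat.le_of_dvd (by norm_num) h6
      omega
    · exact h5

end H22OD
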