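import Pool.Agent.H22.OD.LamShift
import Pool.Agent.H22.OD.LamLow

/-!
# OD KerMod (uses LamShift, LamLow).
PROOF. `m = w x`, `n = w^3/4 x`, `W = w^3`, `Z = X^(p-1) - 1`.  For `B' = (B'_c)`, `deg B'_c < n_c`, put
`B_c = (bn (6(c+1)m)).comp (C (6(c+1)) X) B'_c` (degree `< n`), `U = ∑_c B_c Lam((c+1)X)`.  The condition
`Z ∣ U` is `p - 1` linear equations (remainder mod the monic `Z`), so the space `K₀` of the `B'` with
`Z ∣ U` has dimension `≥ ∑ n_c - (p-1)`.  For `B' ∈ K₀`, `U = Z G`, `deg G < n`, put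
`C_0 = -G - Lam_0 ∑ B_c`, `C_e = - Lam_e ∑_c (c+1)^e B_c` (`0 < e < w`).  By `lam_shift` (divide by
`(X+a)^(p-1) - 1`, `U(a+y) = ((a+y)^(p-1) - 1) G(a+y)`):
`(y^(p-1)-1) G(a+y) - ∑ B_c(a+y) Lam((c+1)y) = (y^(p-1)-1) ∑_c B'_c(a+y) RR_(c+1)(y)`; modulo `y^W`
(`W ≤ p - 1`, `lam_low`) this is `∑_e C_e(a+y) y^e + ∑_c B'_c(a+y) RR = 0`.  Coordinates: `PB _ x i`
(`i < n`) is a basis of the polynomials of degree `< n` (`x < p`), and `B' ↦ (C, B')` is injective.
-/

namespace H22OD

open Finset Polynomial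

private theorem km_bn_degree {F : Type} [Field F] (N : ℕ) (h : (N.factorial : F) ≠ 0) :
    (bn F N).degree = (N : ℕ) := by
  unfold bn
  rw [degree_C_mul (inv_ne_zero h), degree_prod]
  simp only [degree_X_sub_C, sum_const, card_range, nsmul_one]

private theorem km_PB_degree {F : Type} [Field F] (x i : ℕ) (hx : 0 < x)
    (h : ∀ N ≤ x, (N.factorial : F) ≠ 0) : (PB F x i).degree = (i : ℕ) := by
  unfold PB
  rw [degree_mul, degree_pow, km_bn_degree x (h x le_rfl),
    km_bn_degree (i % x) (h _ (Nat.mod_lt i hx).le), nsmul_eq_mul, ← Nat.cast_mul, ← Nat.cast_add,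
    Nat.div_add_mod' i x]

private theorem km_exists {F : Type} [Field F] (P : ℕ → F[X]) :
    ∀ N : ℕ, (∀ i < N, (P i).degree = (i : ℕ)) → ∀ Q : F[X], Q.degree < (N : ℕ) →
      ∃ c : ℕ → F, Q = ∑ i ∈ range N, C (c i) * P i := by
  intro N
  induction N with
  | zero =>
    intro _ Q hQ
    refine ⟨fun _ => 0, ?_⟩
    rw [range_zero, sum_empty]
    rw [Nat.cast_zero] at hQ
    exact degree_eq_bot.1 ((Nat.WithBot.lt_zero_iff).1 hQ)
  | succ N ih =>
    intro hP Q hQ
    have hPN : (P N).degree = (N : ℕ) := hP N (Nat.lt_succ_self N)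
    have hPc : (P N).coeff N ≠ 0 := by
      have h0 : (P N).natDegree = N := natDegree_eq_of_degree_eq_some hPN
      intro h1
      have h2 : (P N).leadingCoeff = 0 := by rw [leadingCoeff, h0, h1]
      rw [leadingCoeff_eq_zero] at h2
      rw [h2, degree_zero] at hPN
      exact absurd hPN (WithBot.bot_ne_natCast N)
    have hQ' : (Q - C (Q.coeff N / (P N).coeff N) * P N).degree < (N : ℕ) := by
      rw [degree_lt_iff_coeff_zero]
      intro m hm
      rw [coeff_sub, coeff_C_mul]
      rcases Nat.eq_or_lt_of_le hm with h | h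
      · rw [← h, div_mul_cancel₀ _ hPc, sub_self]
      · have h1 : Q.coeff m = 0 :=
          coeff_eq_zero_of_degree_lt (lt_of_lt_of_le hQ (by exact_mod_cast h))
        have h2 : (P N).coeff m = 0 :=
          coeff_eq_zero_of_degree_lt (by rw [hPN]; exact_mod_cast h)
        rw [h1, h2, mul_zero, sub_zero]
    obtain ⟨c, hc⟩ := ih (fun i hi => hP i (by omega)) _ hQ'
    refine ⟨fun i => if i = N then Q.coeff N / (P N).coeff N else c i, ?_⟩
    rw [sum_range_succ]
    beta_reduce
    rw [if_pos rfl]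
    have h1 : ∑ i ∈ range N, C (if i = N then Q.coeff N / (P N).coeff N else c i) * P i
        = ∑ i ∈ range N, C (c i) * P i := by
      refine sum_congr rfl fun i hi => ?_
      rw [if_neg (by rw [mem_range] at hi; omega)]
    rw [h1, ← hc]
    ring

private theorem km_row {F : Type} [Field F] (w x : ℕ) (v : Col w x → F) (r : Row w x) :
    (Mat F w x).mulVec v r =
      (∑ e : Fin w, (∑ j : Fin (w ^ 3 / 4 * x), C (v (Sum.inl (e, j))) * PB F x j).comp
          (X + C ((r.1.val : ℕ) : F)) * X ^ e.val +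
        ∑ c : Fin w, (∑ j : Fin (w ^ 3 / 4 * x - 6 * (c.val + 1) * (w * x)),
          C (v (Sum.inr ⟨c, j⟩)) * PB F x j).comp (X + C ((r.1.val : ℕ) : F)) *
            RR F (w * x) (c.val + 1) r.1.val).coeff r.2.val := by
  rw [Matrix.mulVec, dotProduct, Fintype.sum_sum_type, Fintype.sum_prod_type, Fintype.sum_sigma,
    coeff_add, finsetSum_coeff, finsetSum_coeff]
  congr 1
  · refine sum_congr rfl fun e _ => ?_
    rw [Polynomial.sum_comp, sum_mul, finsetSum_coeff]
    refine sum_congr rfl fun j _ => ?_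
    rw [mul_comp, C_comp, mul_assoc, coeff_C_mul, mul_comm]
    rfl
  · refine sum_congr rfl fun c _ => ?_
    rw [Polynomial.sum_comp, sum_mul, finsetSum_coeff]
    refine sum_congr rfl fun j _ => ?_
    rw [mul_comp, C_comp, mul_assoc, coeff_C_mul, mul_comm]
    rfl

/-- coefficients of `B L` below `W` only depend on the coefficients of `L` below `W` -/
private theorem km_coeff_mul {F : Type} [Field F] (B L L' : F[X]) (W i : ℕ) (hi : i < W)
    (h : ∀ j < W, L.coeff j = L'.coeff j) : (B * L).coeff i = (B * L').coeff i := by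
  rw [coeff_mul, coeff_mul]
  refine sum_congr rfl fun q hq => ?_
  rw [HasAntidiagonal.mem_antidiagonal] at hq
  rw [h q.2 (by omega)]

/-- the solution of the conditions attached to `B'` with `Z ∣ U` -/
private theorem km_key (w x p : ℕ) [Fact p.Prime] (hw : 2 ≤ w) (hwe : Even w) (hp7 : 7 ≤ p)
    (hp : 6 * w * (w * x) < p) (hpw : w ^ 3 + 2 ≤ p) (hE : Ew w p)
    (B : Fin w → (ZMod p)[X])
    (hB : ∀ c : Fin w, (B c).degree < ((w ^ 3 / 4 * x - 6 * (c.val + 1) * (w * x) : ℕ) : WithBot ℕ))
    (hU : (X ^ (p - 1) - 1 : (ZMod p)[X]) ∣ ∑ c : Fin w,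
      (bn (ZMod p) (6 * (c.val + 1) * (w * x))).comp (C ((6 * (c.val + 1) : ℕ) : ZMod p) * X) * B c *
        (Lam p).comp (C ((c.val + 1 : ℕ) : ZMod p) * X)) :
    ∃ A : Fin w → (ZMod p)[X], (∀ e, (A e).degree < ((w ^ 3 / 4 * x : ℕ) : WithBot ℕ)) ∧
      ∀ a < w * x, ∀ i < w ^ 3,
        (∑ e : Fin w, (A e).comp (X + C ((a : ℕ) : ZMod p)) * X ^ e.val +
          ∑ c : Fin w, (B c).comp (X + C ((a : ℕ) : ZMod p)) *
            RR (ZMod p) (w * x) (c.val + 1) a).coeff i = 0 := by
  obtain ⟨G, hG⟩ := hU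
  have hlc : (Lam p).degree < ((p - 1 : ℕ) : WithBot ℕ) := by
    rw [degree_lt_iff_coeff_zero]
    intro k hk
    unfold Lam
    rw [finsetSum_coeff]
    refine sum_eq_zero fun j hj => ?_
    rw [coeff_C_mul_X_pow, if_neg]
    rw [mem_range] at hj
    omega
  obtain ⟨Bc, hBc⟩ : ∃ Bc : Fin w → (ZMod p)[X], ∀ c : Fin w, Bc c =
      (bn (ZMod p) (6 * (c.val + 1) * (w * x))).comp (C ((6 * (c.val + 1) : ℕ) : ZMod p) * X) * B c :=
    ⟨_, fun _ => rfl⟩
  have hfac : ∀ N < p, ((N.factorial : ℕ) : ZMod p) ≠ 0 := by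
    intro N hN h0
    rw [ZMod.natCast_eq_zero_iff] at h0
    exact absurd ((Nat.Prime.dvd_factorial Fact.out).1 h0) (not_le.2 hN)
  have hN : ∀ c : Fin w, 6 * (c.val + 1) * (w * x) < p := fun c =>
    lt_of_le_of_lt (Nat.mul_le_mul_right _ (Nat.mul_le_mul_left _ c.isLt)) hp
  have hBcd : ∀ c : Fin w, (Bc c).degree < ((w ^ 3 / 4 * x : ℕ) : WithBot ℕ) := by
    intro c
    by_cases h0 : B c = 0
    · rw [hBc, h0, mul_zero, degree_zero]
      exact WithBot.bot_lt_natCast _
    · have h1 := hB c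
      rw [degree_eq_natDegree h0] at h1
      have h2 : (B c).natDegree < w ^ 3 / 4 * x - 6 * (c.val + 1) * (w * x) := by exact_mod_cast h1
      have h3 : (bn (ZMod p) (6 * (c.val + 1) * (w * x))).natDegree = 6 * (c.val + 1) * (w * x) :=
        natDegree_eq_of_degree_eq_some (km_bn_degree _ (hfac _ (hN c)))
      have h4 : ((bn (ZMod p) (6 * (c.val + 1) * (w * x))).comp
          (C ((6 * (c.val + 1) : ℕ) : ZMod p) * X)).natDegree ≤ 6 * (c.val + 1) * (w * x) := by
        refine natDegree_comp_le.trans ?_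
        rw [h3]
        exact (Nat.mul_le_mul_left _ ((natDegree_C_mul_le _ _).trans natDegree_X_le)).trans (mul_one _).le
      have h5 : (Bc c).natDegree < w ^ 3 / 4 * x := by
        rw [hBc]
        refine lt_of_le_of_lt natDegree_mul_le ?_
        omega
      exact lt_of_le_of_lt degree_le_natDegree (by exact_mod_cast h5)
  have hX1 : (X ^ (p - 1) - 1 : (ZMod p)[X]).degree = ((p - 1 : ℕ) : WithBot ℕ) := by
    rw [← C_1]
    exact degree_X_pow_sub_C (by omega) 1
  have hGd : G.degree < ((w ^ 3 / 4 * x : ℕ) : WithBot ℕ) := by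
    by_cases h0 : G = 0
    · rw [h0, degree_zero]
      exact WithBot.bot_lt_natCast _
    · have h1 : ((X ^ (p - 1) - 1 : (ZMod p)[X]) * G) ∈ degreeLT (ZMod p) (w ^ 3 / 4 * x + (p - 1)) := by
        rw [← hG]
        refine Submodule.sum_mem _ fun c _ => ?_
        rw [mem_degreeLT, ← hBc]
        by_cases h2 : Bc c = 0
        · rw [h2, zero_mul, degree_zero]
          exact WithBot.bot_lt_natCast _
        · have h3 := hBcd c
          rw [degree_eq_natDegree h2] at h3
          have h4 : (Bc c).natDegree < w ^ 3 / 4 * x := by exact_mod_cast h3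
          have h5 : (Lam p).natDegree ≤ p - 1 := by
            rw [natDegree_le_iff_degree_le]
            exact hlc.le
          have h6 : ((Lam p).comp (C ((c.val + 1 : ℕ) : ZMod p) * X)).natDegree ≤ p - 1 := by
            refine natDegree_comp_le.trans ?_
            exact (Nat.mul_le_mul h5 ((natDegree_C_mul_le _ _).trans natDegree_X_le)).trans (mul_one _).le
          have h7 : (Bc c * (Lam p).comp (C ((c.val + 1 : ℕ) : ZMod p) * X)).natDegree
              < w ^ 3 / 4 * x + (p - 1) := by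
            refine lt_of_le_of_lt natDegree_mul_le ?_
            omega
          exact lt_of_le_of_lt degree_le_natDegree (by exact_mod_cast h7)
      rw [mem_degreeLT, degree_mul, hX1, degree_eq_natDegree h0] at h1
      rw [degree_eq_natDegree h0]
      have h2 : (p - 1) + G.natDegree < w ^ 3 / 4 * x + (p - 1) := by exact_mod_cast h1
      exact_mod_cast (by omega : G.natDegree < w ^ 3 / 4 * x)
  refine ⟨fun e => (if e.val = 0 then -G else 0) -
    C ((Lam p).coeff e.val) * ∑ c : Fin w, C (((c.val + 1 : ℕ) : ZMod p) ^ e.val) * Bc c,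
    fun e => ?_, fun a ha i hi => ?_⟩
  · rw [← mem_degreeLT]
    refine Submodule.sub_mem _ ?_ ?_
    · split_ifs with h
      · exact Submodule.neg_mem _ (mem_degreeLT.2 hGd)
      · exact Submodule.zero_mem _
    · rw [← smul_eq_C_mul]
      refine Submodule.smul_mem _ _ (Submodule.sum_mem _ fun c _ => ?_)
      rw [← smul_eq_C_mul]
      exact Submodule.smul_mem _ _ (mem_degreeLT.2 (hBcd c))
  · obtain ⟨z, hz⟩ : ∃ z : (ZMod p)[X], z = X + C ((a : ℕ) : ZMod p) := ⟨_, rfl⟩
    have hTa : (z ^ (p - 1) - 1 : (ZMod p)[X]) ≠ 0 := by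
      intro h0
      have h1 : z.degree = 1 := by rw [hz]; exact degree_X_add_C _
      have h2 : (z ^ (p - 1)).degree = ((p - 1 : ℕ) : WithBot ℕ) := by
        rw [degree_pow, h1, nsmul_one]
      rw [sub_eq_zero.1 h0, degree_one] at h2
      have h3 : (0 : ℕ) = p - 1 := by exact_mod_cast h2
      omega
    have hUc : (z ^ (p - 1) - 1) * G.comp z = ∑ c : Fin w, (Bc c).comp z *
        (Lam p).comp (C ((c.val + 1 : ℕ) : ZMod p) * z) := by
      have h1 := congrArg (fun q : (ZMod p)[X] => q.comp z) hG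
      beta_reduce at h1
      rw [mul_comp, sub_comp, pow_comp, X_comp, one_comp] at h1
      rw [← h1, Polynomial.sum_comp]
      refine sum_congr rfl fun c _ => ?_
      rw [← hBc, mul_comp, comp_assoc, mul_comp, C_comp, X_comp]
    have hBz : ∀ c : Fin w, (Bc c).comp z = (bn (ZMod p) (6 * (c.val + 1) * (w * x))).comp
        (C ((6 * (c.val + 1) : ℕ) : ZMod p) * z) * (B c).comp z := by
      intro c
      rw [hBc, mul_comp, comp_assoc, mul_comp, C_comp, X_comp]
    have hE1 : (X ^ (p - 1) - 1) * G.comp z - ∑ c : Fin w, (Bc c).comp z *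
        (Lam p).comp (C ((c.val + 1 : ℕ) : ZMod p) * X)
        = (X ^ (p - 1) - 1) * ∑ c : Fin w, (B c).comp z * RR (ZMod p) (w * x) (c.val + 1) a := by
      refine mul_left_cancel₀ hTa ?_
      have h1 : (z ^ (p - 1) - 1) * ((X ^ (p - 1) - 1) * G.comp z - ∑ c : Fin w, (Bc c).comp z *
          (Lam p).comp (C ((c.val + 1 : ℕ) : ZMod p) * X))
          = (X ^ (p - 1) - 1) * ((z ^ (p - 1) - 1) * G.comp z) - (z ^ (p - 1) - 1) *
            ∑ c : Fin w, (Bc c).comp z * (Lam p).comp (C ((c.val + 1 : ℕ) : ZMod p) * X) := by ring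
      rw [h1, hUc, mul_sum, mul_sum, ← sum_sub_distrib, mul_sum, mul_sum]
      refine sum_congr rfl fun c _ => ?_
      have h2 := lam_shift p hp7 (w * x) (c.val + 1) a (by omega) ha (hN c)
      rw [← hz] at h2
      rw [hBz]
      linear_combination (B c).comp z * h2
    have hcf : ∀ Q : (ZMod p)[X], ((X ^ (p - 1) - 1) * Q).coeff i = - Q.coeff i := by
      intro Q
      rw [sub_mul, one_mul, coeff_sub, coeff_X_pow_mul', if_neg (by omega), zero_sub]
    have hE2 := congrArg (fun q : (ZMod p)[X] => q.coeff i) hE1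
    beta_reduce at hE2
    rw [coeff_sub, hcf, hcf] at hE2
    have hlow : (∑ c : Fin w, (Bc c).comp z * (Lam p).comp (C ((c.val + 1 : ℕ) : ZMod p) * X)).coeff i
        = (∑ c : Fin w, (Bc c).comp z * ∑ e : Fin w,
          C ((Lam p).coeff e.val * ((c.val + 1 : ℕ) : ZMod p) ^ e.val) * X ^ e.val).coeff i := by
      rw [finsetSum_coeff, finsetSum_coeff]
      refine sum_congr rfl fun c _ => ?_
      refine km_coeff_mul _ _ _ (w ^ 3) i hi fun j hj => ?_
      rw [comp_C_mul_X_coeff, finsetSum_coeff]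
      by_cases hjw : j < w
      · rw [sum_eq_single (⟨j, hjw⟩ : Fin w)]
        · rw [coeff_C_mul_X_pow, if_pos rfl]
        · intro b _ hb
          rw [coeff_C_mul_X_pow, if_neg]
          intro h
          exact hb (Fin.ext h.symm)
        · intro h
          exact absurd (mem_univ _) h
      · rw [lam_low p w hw hwe hpw hE j (not_lt.1 hjw) hj, zero_mul]
        symm
        refine sum_eq_zero fun b _ => ?_
        rw [coeff_C_mul_X_pow, if_neg]
        have := b.isLt
        omega
    rw [← hz]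
    have hfin : ∑ e : Fin w, ((if e.val = 0 then -G else 0) -
        C ((Lam p).coeff e.val) * ∑ c : Fin w, C (((c.val + 1 : ℕ) : ZMod p) ^ e.val) * Bc c).comp z
          * X ^ e.val
        = - G.comp z - ∑ c : Fin w, (Bc c).comp z * ∑ e : Fin w,
          C ((Lam p).coeff e.val * ((c.val + 1 : ℕ) : ZMod p) ^ e.val) * X ^ e.val := by
      have h1 : ∑ c : Fin w, (Bc c).comp z * ∑ e : Fin w,
          C ((Lam p).coeff e.val * ((c.val + 1 : ℕ) : ZMod p) ^ e.val) * X ^ e.val
          = ∑ e : Fin w, (C ((Lam p).coeff e.val) *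
            ∑ c : Fin w, C (((c.val + 1 : ℕ) : ZMod p) ^ e.val) * (Bc c).comp z) * X ^ e.val := by
        simp only [mul_sum, sum_mul]
        rw [sum_comm]
        refine sum_congr rfl fun e _ => sum_congr rfl fun c _ => ?_
        rw [C_mul]
        ring
      have h2 : ∑ e : Fin w, (if e.val = 0 then -G else 0).comp z * X ^ e.val = - G.comp z := by
        rw [sum_eq_single (⟨0, by omega⟩ : Fin w)]
        · rw [if_pos rfl, neg_comp, pow_zero, mul_one]
        · intro b _ hb
          rw [if_neg, zero_comp, zero_mul]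
          intro h
          exact hb (Fin.ext h)
        · intro h
          exact absurd (mem_univ _) h
      rw [h1, ← h2, ← sum_sub_distrib]
      refine sum_congr rfl fun e _ => ?_
      rw [sub_comp, mul_comp, C_comp, Polynomial.sum_comp, sub_mul]
      congr 3
      refine sum_congr rfl fun c _ => ?_
      rw [mul_comp, C_comp]
    rw [hfin, coeff_add, coeff_sub, coeff_neg]
    rw [hlow] at hE2
    linear_combination hE2

theorem ker_mod (w x p : ℕ) [Fact p.Prime] (hw : 2 ≤ w) (hwe : Even w) (hp7 : 7 ≤ p)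
    (hp : 6 * w * (w * x) < p) (hpw : w ^ 3 + 2 ≤ p) (hE : Ew w p) :
    ∑ c ∈ range w, (w ^ 3 / 4 * x - 6 * (c + 1) * (w * x)) + 1 ≤
      Module.finrank (ZMod p) (LinearMap.ker (Mat (ZMod p) w x).mulVecLin) + p := by
  classical
  have hfac : ∀ N < p, ((N.factorial : ℕ) : ZMod p) ≠ 0 := by
    intro N hN h0
    rw [ZMod.natCast_eq_zero_iff] at h0
    exact absurd ((Nat.Prime.dvd_factorial Fact.out).1 h0) (not_le.2 hN)
  -- the map `u ↦ U`
  let L : ((Σ c : Fin w, Fin (w ^ 3 / 4 * x - 6 * (c.val + 1) * (w * x))) → ZMod p) →ₗ[ZMod p]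
      (ZMod p)[X] :=
    { toFun := fun u => ∑ c : Fin w,
        (bn (ZMod p) (6 * (c.val + 1) * (w * x))).comp (C ((6 * (c.val + 1) : ℕ) : ZMod p) * X) *
          (∑ j : Fin (w ^ 3 / 4 * x - 6 * (c.val + 1) * (w * x)),
            C (u ⟨c, j⟩) * PB (ZMod p) x j) *
          (Lam p).comp (C ((c.val + 1 : ℕ) : ZMod p) * X)
      map_add' := fun u v => by
        rw [← sum_add_distrib]
        refine sum_congr rfl fun c _ => ?_
        rw [← add_mul, ← mul_add, ← sum_add_distrib]
        congr 2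
        refine sum_congr rfl fun j _ => ?_
        rw [Pi.add_apply, C_add, add_mul]
      map_smul' := fun r u => by
        rw [RingHom.id_apply, smul_sum]
        refine sum_congr rfl fun c _ => ?_
        rw [← smul_mul_assoc, ← mul_smul_comm, smul_sum]
        congr 2
        refine sum_congr rfl fun j _ => ?_
        rw [Pi.smul_apply, smul_eq_mul, C_mul, smul_eq_C_mul, mul_assoc] }
  let ρ : ((Σ c : Fin w, Fin (w ^ 3 / 4 * x - 6 * (c.val + 1) * (w * x))) → ZMod p) →ₗ[ZMod p]
      (Fin (p - 1) → ZMod p) :=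
    LinearMap.pi fun j => (lcoeff (ZMod p) j.val).comp
      ((modByMonicHom (X ^ (p - 1) - 1 : (ZMod p)[X])).comp L)
  have hZm : (X ^ (p - 1) - 1 : (ZMod p)[X]).Monic := by
    rw [← C_1]
    exact monic_X_pow_sub_C 1 (by omega)
  have hZd : (X ^ (p - 1) - 1 : (ZMod p)[X]).degree = ((p - 1 : ℕ) : WithBot ℕ) := by
    rw [← C_1]
    exact degree_X_pow_sub_C (by omega) 1
  have hρ : ∀ u, ρ u = 0 → (X ^ (p - 1) - 1 : (ZMod p)[X]) ∣ L u := by
    intro u hu
    rw [← modByMonic_eq_zero_iff_dvd hZm]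
    ext k
    rw [coeff_zero]
    by_cases hk : k < p - 1
    · exact congrFun hu ⟨k, hk⟩
    · refine coeff_eq_zero_of_degree_lt ?_
      refine lt_of_lt_of_le (degree_modByMonic_lt _ hZm) ?_
      rw [hZd]
      exact_mod_cast not_lt.1 hk
  have hle : LinearMap.ker ρ ≤
      (LinearMap.ker (Mat (ZMod p) w x).mulVecLin).map (LinearMap.funLeft (ZMod p) (ZMod p) Sum.inr) := by
    intro u hu
    rw [LinearMap.mem_ker] at hu
    have hx : ∀ c : Fin w, ∀ j < w ^ 3 / 4 * x - 6 * (c.val + 1) * (w * x),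
        (PB (ZMod p) x j).degree = (j : ℕ) := by
      intro c j hj
      have hx0 : 0 < x := by
        rcases Nat.eq_zero_or_pos x with h | h
        · rw [h, mul_zero] at hj
          omega
        · exact h
      refine km_PB_degree x j hx0 fun N hN => hfac N ?_
      have h1 : x ≤ 6 * w * (w * x) := by
        have h2 : 1 ≤ 6 * w * w := by nlinarith
        calc x = 1 * x := (one_mul x).symm
          _ ≤ 6 * w * w * x := Nat.mul_le_mul_right _ h2
          _ = 6 * w * (w * x) := by ring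
      omega
    obtain ⟨A, hA, hA2⟩ := km_key w x p hw hwe hp7 hp hpw hE
      (fun c => ∑ j : Fin (w ^ 3 / 4 * x - 6 * (c.val + 1) * (w * x)),
            C (u ⟨c, j⟩) * PB (ZMod p) x j) (fun c => by
        rw [← mem_degreeLT]
        refine Submodule.sum_mem _ fun j _ => ?_
        rw [← smul_eq_C_mul]
        refine Submodule.smul_mem _ _ ?_
        rw [mem_degreeLT, hx c j.val j.isLt]
        exact_mod_cast j.isLt) (hρ u hu)
    have hco : ∀ e : Fin w, ∃ q : ℕ → ZMod p,
        A e = ∑ i ∈ range (w ^ 3 / 4 * x), C (q i) * PB (ZMod p) x i := by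
      intro e
      refine km_exists (PB (ZMod p) x) (w ^ 3 / 4 * x) (fun i hi => ?_) (A e) (hA e)
      have hx0 : 0 < x := by
        rcases Nat.eq_zero_or_pos x with h | h
        · rw [h, mul_zero] at hi
          omega
        · exact h
      refine km_PB_degree x i hx0 fun N hN => hfac N ?_
      have h1 : x ≤ 6 * w * (w * x) := by
        have h2 : 1 ≤ 6 * w * w := by nlinarith
        calc x = 1 * x := (one_mul x).symm
          _ ≤ 6 * w * w * x := Nat.mul_le_mul_right _ h2
          _ = 6 * w * (w * x) := by ring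
      omega
    choose q hq using hco
    refine Submodule.mem_map.2 ⟨Sum.elim (fun s => q s.1 s.2.val) u, ?_, ?_⟩
    · rw [LinearMap.mem_ker]
      funext r
      rw [Matrix.mulVecLin_apply, km_row, Pi.zero_apply]
      have h1 := hA2 r.1.val r.1.isLt r.2.val r.2.isLt
      rw [← h1]
      congr 2
      refine sum_congr rfl fun e _ => ?_
      rw [hq e, ← Fin.sum_univ_eq_sum_range (fun i => C (q e i) * PB (ZMod p) x i)]
      rfl
    · funext s
      rfl
  have h1 : Module.finrank (ZMod p) (LinearMap.ker ρ) ≤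
      Module.finrank (ZMod p) (LinearMap.ker (Mat (ZMod p) w x).mulVecLin) :=
    (Submodule.finrank_mono hle).trans (Submodule.finrank_map_le _ _)
  have h2 := LinearMap.finrank_range_add_finrank_ker ρ
  have h3 : Module.finrank (ZMod p) (LinearMap.range ρ) ≤ p - 1 := by
    have h4 := Submodule.finrank_le (LinearMap.range ρ)
    rwa [Module.finrank_fintype_fun_eq_card, Fintype.card_fin] at h4
  rw [Module.finrank_fintype_fun_eq_card, Fintype.card_sigma] at h2
  have h5 : ∑ c : Fin w, Fintype.card (Fin (w ^ 3 / 4 * x - 6 * (c.val + 1) * (w * x)))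
      = ∑ c ∈ range w, (w ^ 3 / 4 * x - 6 * (c + 1) * (w * x)) := by
    rw [← Fin.sum_univ_eq_sum_range (fun c => w ^ 3 / 4 * x - 6 * (c + 1) * (w * x))]
    exact sum_congr rfl fun c _ => Fintype.card_fin _
  rw [h5] at h2
  omega

end H22OD
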