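import Pool.Agent.H22.OD.RRs
import Mathlib.Algebra.Polynomial.Sequence

/-!
# OD KerRat (uses Zero, RRs).
PROOF. `C_e = ∑_i v(inl (e,i)) PB_i`, `B'_c = ∑_i v(inr (c,i)) PB_i`, `B_c = B'_c (bn (6(c+1)m)).comp (C (6(c+1)) X)`
of degree `< n`; `zero_additive` with `m = w x`, `n = w^3/4 x`, `W = w^3` (numerical condition for `w ≥ 4`,
`x ≥ x₁(w)`); `PB_i` has degree exactly `i`, so `v = 0`.
-/

namespace H22OD

open Finset Polynomial

theorem KerRat_bn_degree (N : ℕ) : (bn ℚ N).degree = N := by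
  unfold bn
  rw [degree_mul, degree_C (inv_ne_zero (by exact_mod_cast N.factorial_ne_zero)), zero_add,
    degree_prod, sum_congr rfl fun k _ => degree_X_sub_C ((k : ℕ) : ℚ)]
  simp

theorem KerRat_bn_ne (N : ℕ) : bn ℚ N ≠ 0 := by
  intro h
  have := KerRat_bn_degree N
  rw [h, degree_zero] at this
  exact absurd this (by simp)

theorem KerRat_PB_degree (x : ℕ) (i : ℕ) : (PB ℚ x i).degree = i := by
  unfold PB
  rw [degree_mul, degree_pow, KerRat_bn_degree, KerRat_bn_degree]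
  have h := Nat.div_add_mod i x
  calc (i / x) • (x : WithBot ℕ) + ((i % x : ℕ) : WithBot ℕ)
      = ((x * (i / x) + i % x : ℕ) : WithBot ℕ) := by
        rw [nsmul_eq_mul]
        push_cast
        ring
    _ = i := by rw [h]

/-- the sequence of the `PB` -/
noncomputable def KerRat_seq (x : ℕ) : Polynomial.Sequence ℚ where
  elems' := PB ℚ x
  degree_eq' := KerRat_PB_degree x

/-- combinations of the basis -/
noncomputable def KerRat_cmb (x n : ℕ) (v : Fin n → ℚ) : ℚ[X] := ∑ i, C (v i) * PB ℚ x i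

theorem KerRat_cmb_zero {x n : ℕ} {v : Fin n → ℚ} (h : KerRat_cmb x n v = 0) : v = 0 := by
  have h1 : LinearIndependent ℚ (KerRat_seq x : ℕ → ℚ[X]) := Sequence.linearIndependent _
  have h2 : LinearIndependent ℚ (fun i : Fin n => (KerRat_seq x : ℕ → ℚ[X]) i.val) :=
    h1.comp _ Fin.val_injective
  rw [Fintype.linearIndependent_iff] at h2
  funext i
  refine h2 v ?_ i
  rw [← h]
  unfold KerRat_cmb
  refine sum_congr rfl fun i _ => ?_
  rw [smul_eq_C_mul]
  rfl

theorem KerRat_cmb_degree {x n : ℕ} (v : Fin n → ℚ) : (KerRat_cmb x n v).degree < n := by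
  unfold KerRat_cmb
  refine (degree_sum_le _ _).trans_lt ((Finset.sup_lt_iff (WithBot.bot_lt_coe n)).2 ?_)
  intro i _
  by_cases h : v i = 0
  · rw [h, C_0, zero_mul, degree_zero]
    exact WithBot.bot_lt_coe n
  · rw [degree_C_mul h, KerRat_PB_degree]
    exact WithBot.coe_lt_coe.2 i.isLt

theorem KerRat_num (w x : ℕ) (hw : 4 ≤ w) (hx : 16 ≤ x) :
    (2 * w + 1) * (w ^ 3 / 4 * x) + 12 * w ^ 2 * (w + 1) < (w * x - 2 * w) * (w ^ 3 - w) := by
  have h1 : 4 * (w ^ 3 / 4) ≤ w ^ 3 := Nat.mul_div_le _ _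
  obtain ⟨y, rfl⟩ : ∃ y, x = y + 16 := ⟨x - 16, by omega⟩
  obtain ⟨u, rfl⟩ : ∃ u, w = u + 4 := ⟨w - 4, by omega⟩
  obtain ⟨q, hq⟩ : ∃ q, q = (u + 4) ^ 3 / 4 := ⟨_, rfl⟩
  rw [← hq] at h1 ⊢
  have e1 : (u + 4) * (y + 16) - 2 * (u + 4) = (u + 4) * (y + 14) := by
    rw [Nat.sub_eq_iff_eq_add (by nlinarith)]
    ring
  have e2 : (u + 4) ^ 3 - (u + 4) = (u + 3) * (u + 4) * (u + 5) := by
    rw [Nat.sub_eq_iff_eq_add (by nlinarith [sq_nonneg u])]
    ring
  rw [e1, e2]
  have h2 : 4 * ((2 * (u + 4) + 1) * (q * (y + 16))) ≤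
      (2 * (u + 4) + 1) * ((u + 4) ^ 3 * (y + 16)) := by
    calc 4 * ((2 * (u + 4) + 1) * (q * (y + 16))) = (2 * (u + 4) + 1) * ((4 * q) * (y + 16)) := by ring
      _ ≤ _ := by gcongr
  have h3 : (2 * (u + 4) + 1) * ((u + 4) ^ 3 * (y + 16)) + 4 * (12 * (u + 4) ^ 2 * (u + 4 + 1)) <
      4 * ((u + 4) * (y + 14) * ((u + 3) * (u + 4) * (u + 5))) := by
    have h4 : 0 ≤ u * y := Nat.zero_le _
    ring_nf
    nlinarith [Nat.zero_le (u * y), Nat.zero_le (u ^ 2 * y), Nat.zero_le (u ^ 3 * y),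
      Nat.zero_le (u ^ 4 * y), Nat.zero_le (u ^ 2), Nat.zero_le (u ^ 3), Nat.zero_le (u ^ 4)]
  omega

theorem ker_rat (w : ℕ) (hw : 4 ≤ w) : ∃ x₁ : ℕ, ∀ x : ℕ, x₁ ≤ x →
    ∀ v : Col w x → ℚ, (Mat ℚ w x).mulVec v = 0 → v = 0 := by
  refine ⟨16, fun x hx v hv => ?_⟩
  set n := w ^ 3 / 4 * x with hn
  set m := w * x with hm
  have hn0 : 0 < n := by
    have h1 : 4 ≤ w ^ 3 := by nlinarith [pow_pos (show 0 < w by omega) 2]
    have : 0 < w ^ 3 / 4 := Nat.div_pos h1 (by norm_num)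
    positivity
  set Ce : Fin w → ℚ[X] := fun e => KerRat_cmb x n (fun i => v (Sum.inl (e, i))) with hCe
  set B' : Fin w → ℚ[X] := fun c =>
    KerRat_cmb x (n - 6 * (c.val + 1) * m) (fun i => v (Sum.inr ⟨c, i⟩)) with hB'
  set B : Fin w → ℚ[X] := fun c =>
    B' c * (bn ℚ (6 * (c.val + 1) * m)).comp (C ((6 * (c.val + 1) : ℕ) : ℚ) * X) with hB
  have hdC : ∀ e, (Ce e).natDegree < n := fun e => by
    by_cases h0 : Ce e = 0
    · rw [h0, natDegree_zero]
      exact hn0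
    · exact (natDegree_lt_iff_degree_lt h0).2 (KerRat_cmb_degree _)
  have hcne : ∀ c : Fin w, (C ((6 * (c.val + 1) : ℕ) : ℚ) * X : ℚ[X]).natDegree = 1 := fun c =>
    natDegree_C_mul_X _ (by positivity)
  have hbne : ∀ c : Fin w, (bn ℚ (6 * (c.val + 1) * m)).comp
      (C ((6 * (c.val + 1) : ℕ) : ℚ) * X) ≠ 0 := by
    intro c h0
    rcases comp_eq_zero_iff.1 h0 with h1 | h1
    · exact KerRat_bn_ne _ h1
    · have := hcne c
      rw [h1.2, natDegree_C] at this
      exact absurd this (by norm_num)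
  have hdB : ∀ c, (B c).natDegree < n := fun c => by
    by_cases h0 : B' c = 0
    · simp only [hB, h0, zero_mul, natDegree_zero]
      exact hn0
    · have h1 : (B' c).natDegree < n - 6 * (c.val + 1) * m :=
        (natDegree_lt_iff_degree_lt h0).2 (KerRat_cmb_degree _)
      simp only [hB]
      rw [natDegree_mul h0 (hbne c), natDegree_comp, hcne c, mul_one,
        natDegree_eq_of_degree_eq_some (KerRat_bn_degree _)]
      omega
  have key := zero_additive w m n (w ^ 3) (by omega) Ce B hdC hdB (KerRat_num w x hw hx) ?_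
  · obtain ⟨hC0, hB0⟩ := key
    have hB'0 : ∀ c, B' c = 0 := fun c => by
      rcases mul_eq_zero.1 (hB0 c) with h | h
      · exact h
      · exact absurd h (hbne c)
    funext z
    rcases z with ⟨e, i⟩ | ⟨c, i⟩
    · exact congrFun (KerRat_cmb_zero (hC0 e)) i
    · exact congrFun (KerRat_cmb_zero (hB'0 c)) i
  · intro a ha
    have e1 : ∑ e, (((Ce e).comp (X + C (a : ℚ)) * X ^ e.val : ℚ[X]) : PowerSeries ℚ)
        + ∑ c, (((B c).comp (X + C (a : ℚ)) : ℚ[X]) : PowerSeries ℚ) * rs (c.val + 1) a =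
        ((∑ e, (Ce e).comp (X + C (a : ℚ)) * X ^ e.val +
          ∑ c, (B' c).comp (X + C (a : ℚ)) * RR ℚ m (c.val + 1) a : ℚ[X]) : PowerSeries ℚ) := by
      rw [← Polynomial.coeToPowerSeries.ringHom_apply, map_add, map_sum, map_sum]
      simp only [Polynomial.coeToPowerSeries.ringHom_apply]
      congr 1
      refine sum_congr rfl fun c _ => ?_
      rw [Polynomial.coe_mul, RR_eq m (c.val + 1) a (by omega) ha, ← mul_assoc, ← Polynomial.coe_mul]
      congr 2
      simp only [hB]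
      rw [mul_comp, comp_assoc, mul_comp, C_comp, X_comp]
    rw [e1, PowerSeries.X_pow_dvd_iff]
    intro i hi
    rw [Polynomial.coeff_coe]
    have h2 := congrFun hv (⟨a, ha⟩, ⟨i, hi⟩)
    rw [Matrix.mulVec, dotProduct, Fintype.sum_sum_type, Fintype.sum_prod_type,
      Fintype.sum_sigma] at h2
    rw [coeff_add, finsetSum_coeff, finsetSum_coeff]
    refine Eq.trans ?_ h2
    congr 1
    · refine sum_congr rfl fun e _ => ?_
      simp only [hCe, KerRat_cmb]
      rw [Polynomial.sum_comp, sum_mul, finsetSum_coeff]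
      refine sum_congr rfl fun j _ => ?_
      rw [mul_comp, C_comp, mul_assoc, coeff_C_mul, mul_comm]
      rfl
    · refine sum_congr rfl fun c _ => ?_
      simp only [hB', KerRat_cmb]
      rw [Polynomial.sum_comp, sum_mul, finsetSum_coeff]
      refine sum_congr rfl fun j _ => ?_
      rw [mul_comp, C_comp, mul_assoc, coeff_C_mul, mul_comm]
      rfl

end H22OD
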