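import Pool.Agent.H22.OD.Defs

/-!
# OD LamShift.
PROOF. In `RatFunc (ZMod p)` (or any field extension) put `lam z = ∑_k ep k / (z - k)` for `z` with
`z ≠ k` for all `k : ZMod p`.  (1) `z^(p-1) - 1 = ∏_{k≠0} (z-k)` and `Lam(z) = (z^(p-1) - 1) lam z`
(`(z^(p-1) - k^(p-1))/(z-k) = ∑_j z^j k^(p-2-j)`, `ep 0 = 0`).  (2) reindexing `k ↦ k+1`:
`lam (z+1) - lam z = ∑_k (ep (k+1) - ep k)/(z-k)`, and `ep (k+1) - ep k` is `1` if `3k = -1` or `3k = -2`,
`-2` if `2k = -1`, `0` else (`p ≥ 7`), so it is `6/(6z+2) + 6/(6z+4) - 12/(6z+3) = ∑_{0<h<6} w_h/(6z+h)`.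
(3) induction: `lam (z+b) - lam z = ∑_{0<h<6b} w_h/(6z+h)` (`w_0 = 0`).  (4) `z = cX`, `b = ca`:
`(c(X+a))^(p-1) = (X+a)^(p-1)` as `c^(p-1) = 1` (`0 < c < p`); multiply by
`bn (6cm)` at `6c(X+a)`: its factor `k = 6ca - h` is `6cX + h`.
-/

namespace H22OD

open Finset Polynomial

section LamShift

variable {p : ℕ} [Fact p.Prime] {K : Type*} [Field K] [Algebra (ZMod p) K]

/-- `∑_k ep k / (z - k)` -/
noncomputable def lamK (p : ℕ) [Fact p.Prime] {K : Type*} [Field K] [Algebra (ZMod p) K]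
    (z : K) : K :=
  ∑ k : ZMod p, algebraMap (ZMod p) K (ep p k) / (z - algebraMap (ZMod p) K k)

theorem ep_zero : ep p 0 = 0 := by simp [ep]

theorem aeval_Lam (z : K) (hz : ∀ k : ZMod p, z ≠ algebraMap (ZMod p) K k) :
    aeval z (Lam p) = (z ^ (p - 1) - 1) * lamK p z := by
  have hp1 : 1 ≤ p := (Fact.out : p.Prime).one_lt.le
  unfold Lam lamK
  rw [map_sum]
  have h1 : ∀ j ∈ range (p - 1), aeval z (C (∑ k : ZMod p, ep p k * k ^ (p - 2 - j)) * X ^ j)
      = ∑ k : ZMod p, algebraMap (ZMod p) K (ep p k) *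
        (z ^ j * algebraMap (ZMod p) K k ^ (p - 1 - 1 - j)) := by
    intro j _
    rw [map_mul, aeval_C, map_pow, aeval_X, map_sum, Finset.sum_mul]
    refine Finset.sum_congr rfl fun k _ => ?_
    rw [map_mul, map_pow, show p - 1 - 1 - j = p - 2 - j by omega]
    ring
  rw [Finset.sum_congr rfl h1, Finset.sum_comm, Finset.mul_sum]
  refine Finset.sum_congr rfl fun k _ => ?_
  rw [← Finset.mul_sum]
  by_cases hk : k = 0
  · subst hk
    rw [ep_zero]
    simp
  · have hne : z - algebraMap (ZMod p) K k ≠ 0 := sub_ne_zero.2 (hz k)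
    have h2 := geom_sum₂_mul z (algebraMap (ZMod p) K k) (p - 1)
    rw [← map_pow, ZMod.pow_card_sub_one_eq_one hk, map_one] at h2
    rw [← h2]
    field_simp

theorem ep_diff (hp : 7 ≤ p) (k : ZMod p) :
    ep p (k + 1) - ep p k = (if k = -(3 : ZMod p)⁻¹ then 1 else 0)
      + (if k = -(2 * (3 : ZMod p)⁻¹) then 1 else 0) + (if k = -(2 : ZMod p)⁻¹ then -2 else 0) := by
  have hpp : p.Prime := Fact.out
  have h3 : ((3 : ℕ) : ZMod p) ≠ 0 := by
    rw [Ne, ZMod.natCast_eq_zero_iff]
    intro h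
    have := Nat.le_of_dvd (by norm_num) h
    omega
  have h2 : ((2 : ℕ) : ZMod p) ≠ 0 := by
    rw [Ne, ZMod.natCast_eq_zero_iff]
    intro h
    have := Nat.le_of_dvd (by norm_num) h
    omega
  push_cast at h2 h3
  have hodd : p % 2 = 1 := by
    rcases hpp.eq_two_or_odd with h | h
    · omega
    · exact h
  have hp3 : p % 3 ≠ 0 := by
    intro h
    have := (Nat.prime_dvd_prime_iff_eq Nat.prime_three hpp).1 (Nat.dvd_of_mod_eq_zero h)
    omega
  have hv : k.val < p := ZMod.val_lt k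
  have hcast : ((k.val : ℕ) : ZMod p) = k := ZMod.natCast_zmod_val k
  have e1 : (k = -(3 : ZMod p)⁻¹) ↔ (3 * k.val + 1 = p ∨ 3 * k.val + 1 = 2 * p) := by
    have : (k = -(3 : ZMod p)⁻¹) ↔ p ∣ 3 * k.val + 1 := by
      rw [← ZMod.natCast_eq_zero_iff]
      push_cast
      rw [hcast]
      constructor
      · rintro h
        rw [h]
        field_simp
        ring
      · intro h
        have h' : 3 * k = -1 := by linear_combination h
        field_simp
        linear_combination h'
    rw [this]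
    constructor
    · rintro ⟨q, hq⟩
      have hq3 : q < 3 := by
        by_contra hc
        have : p * 3 ≤ p * q := Nat.mul_le_mul_left p (not_lt.1 hc)
        omega
      interval_cases q <;> omega
    · rintro (h | h)
      · exact ⟨1, by omega⟩
      · exact ⟨2, by omega⟩
  have e2 : (k = -(2 * (3 : ZMod p)⁻¹)) ↔ (3 * k.val + 2 = p ∨ 3 * k.val + 2 = 2 * p) := by
    have : (k = -(2 * (3 : ZMod p)⁻¹)) ↔ p ∣ 3 * k.val + 2 := by
      rw [← ZMod.natCast_eq_zero_iff]
      push_cast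
      rw [hcast]
      constructor
      · rintro h
        rw [h]
        field_simp
        ring
      · intro h
        have h' : 3 * k = -2 := by linear_combination h
        field_simp
        linear_combination h'
    rw [this]
    constructor
    · rintro ⟨q, hq⟩
      have hq3 : q < 3 := by
        by_contra hc
        have : p * 3 ≤ p * q := Nat.mul_le_mul_left p (not_lt.1 hc)
        omega
      interval_cases q <;> omega
    · rintro (h | h)
      · exact ⟨1, by omega⟩
      · exact ⟨2, by omega⟩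
  have e3 : (k = -(2 : ZMod p)⁻¹) ↔ (2 * k.val + 1 = p) := by
    have : (k = -(2 : ZMod p)⁻¹) ↔ p ∣ 2 * k.val + 1 := by
      rw [← ZMod.natCast_eq_zero_iff]
      push_cast
      rw [hcast]
      constructor
      · rintro h
        rw [h]
        field_simp
        ring
      · intro h
        have h' : 2 * k = -1 := by linear_combination h
        field_simp
        linear_combination h'
    rw [this]
    constructor
    · rintro ⟨q, hq⟩
      have hq3 : q < 2 := by
        by_contra hc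
        have : p * 2 ≤ p * q := Nat.mul_le_mul_left p (not_lt.1 hc)
        omega
      interval_cases q <;> omega
    · rintro h
      exact ⟨1, by omega⟩
  simp only [e1, e2, e3]
  have hval : (k + 1).val = if k.val + 1 = p then 0 else k.val + 1 := by
    have : Fact (1 < p) := ⟨hpp.one_lt⟩
    rw [ZMod.val_add, ZMod.val_one]
    split_ifs with h
    · rw [h, Nat.mod_self]
    · exact Nat.mod_eq_of_lt (by omega)
  unfold ep
  rw [hval]
  generalize k.val = v at hv ⊢
  split_ifs <;> first | omega | norm_num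

theorem six_ne (hp : 7 ≤ p) : (6 : K) ≠ 0 := by
  have hpp : p.Prime := Fact.out
  have h6 : ((6 : ℕ) : ZMod p) ≠ 0 := by
    rw [Ne, ZMod.natCast_eq_zero_iff]
    intro h
    have := Nat.le_of_dvd (by norm_num) h
    omega
  intro h
  apply h6
  apply (algebraMap (ZMod p) K).injective
  rw [map_natCast, map_zero]
  exact_mod_cast h

theorem lamK_succ (hp : 7 ≤ p) (z : K) (hz : ∀ k : ZMod p, z ≠ algebraMap (ZMod p) K k) :
    lamK p (z + 1) - lamK p z = 6 / (6 * z + 2) - 12 / (6 * z + 3) + 6 / (6 * z + 4) := by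
  have hpp : p.Prime := Fact.out
  have h6 : (6 : K) ≠ 0 := six_ne hp
  have h2K : (2 : K) ≠ 0 := fun h => h6 (by linear_combination 3 * h)
  have h3K : (3 : K) ≠ 0 := fun h => h6 (by linear_combination 2 * h)
  have e1 : lamK p (z + 1) = ∑ k : ZMod p, algebraMap (ZMod p) K (ep p (k + 1)) /
      (z - algebraMap (ZMod p) K k) := by
    unfold lamK
    rw [← Equiv.sum_comp (Equiv.addRight (1 : ZMod p))]
    refine Finset.sum_congr rfl fun k _ => ?_
    rw [Equiv.coe_addRight, map_add, map_one, add_sub_add_right_eq_sub]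
  rw [e1]
  unfold lamK
  rw [← Finset.sum_sub_distrib]
  have e2 : ∀ k ∈ (univ : Finset (ZMod p)), algebraMap (ZMod p) K (ep p (k + 1)) /
      (z - algebraMap (ZMod p) K k) - algebraMap (ZMod p) K (ep p k) /
      (z - algebraMap (ZMod p) K k) = (if k = -(3 : ZMod p)⁻¹ then
        1 / (z - algebraMap (ZMod p) K k) else 0)
      + (if k = -(2 * (3 : ZMod p)⁻¹) then 1 / (z - algebraMap (ZMod p) K k) else 0)
      + (if k = -(2 : ZMod p)⁻¹ then -2 / (z - algebraMap (ZMod p) K k) else 0) := by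
    intro k _
    rw [← sub_div, ← map_sub, ep_diff hp, map_add, map_add, add_div, add_div]
    congr 1
    · congr 1
      · split_ifs <;> simp
      · split_ifs <;> simp
    · split_ifs <;> simp [map_ofNat]
  rw [Finset.sum_congr rfl e2, Finset.sum_add_distrib, Finset.sum_add_distrib,
    Finset.sum_ite_eq' univ, Finset.sum_ite_eq' univ, Finset.sum_ite_eq' univ]
  simp only [mem_univ, if_true]
  have n1 := sub_ne_zero.2 (hz (-(3 : ZMod p)⁻¹))
  have n2 := sub_ne_zero.2 (hz (-(2 * (3 : ZMod p)⁻¹)))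
  have n3 := sub_ne_zero.2 (hz (-(2 : ZMod p)⁻¹))
  simp only [map_neg, map_mul, map_inv₀, map_ofNat] at n1 n2 n3 ⊢
  have f1 : 6 * z + 2 = 6 * (z - -(3 : K)⁻¹) := by field_simp; ring
  have f2 : 6 * z + 4 = 6 * (z - -(2 * (3 : K)⁻¹)) := by field_simp; ring
  have f3 : 6 * z + 3 = 6 * (z - -(2 : K)⁻¹) := by field_simp; ring
  rw [f1, f2, f3]
  have g1 : (6 : K) / (6 * (z - -(3 : K)⁻¹)) = 1 / (z - -(3 : K)⁻¹) := by
    rw [div_eq_div_iff (mul_ne_zero h6 n1) n1]; ring
  have g2 : (6 : K) / (6 * (z - -(2 * (3 : K)⁻¹))) = 1 / (z - -(2 * (3 : K)⁻¹)) := by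
    rw [div_eq_div_iff (mul_ne_zero h6 n2) n2]; ring
  have g3 : (12 : K) / (6 * (z - -(2 : K)⁻¹)) = 2 / (z - -(2 : K)⁻¹) := by
    rw [div_eq_div_iff (mul_ne_zero h6 n3) n3]; ring
  rw [g1, g2, g3]
  ring

theorem lamK_add (hp : 7 ≤ p) (z : K) (hz : ∀ k : ZMod p, z ≠ algebraMap (ZMod p) K k) (b : ℕ) :
    lamK p (z + b) - lamK p z = ∑ h ∈ range (6 * b), ((wt h : ℤ) : K) / (6 * z + h) := by
  induction b with
  | zero => simp
  | succ b ih =>
    have hz' : ∀ k : ZMod p, z + b ≠ algebraMap (ZMod p) K k := by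
      intro k hk
      apply hz (k - (b : ZMod p))
      rw [map_sub, map_natCast, ← hk]
      ring
    have h1 := lamK_succ hp (z + b) hz'
    have h2 : lamK p (z + ((b + 1 : ℕ) : K)) - lamK p z
        = (lamK p (z + b + 1) - lamK p (z + b)) + (lamK p (z + b) - lamK p z) := by
      push_cast
      rw [← add_assoc]
      ring
    rw [h2, ih, h1, show 6 * (b + 1) = 6 * b + 1 + 1 + 1 + 1 + 1 + 1 by ring]
    simp only [Finset.sum_range_succ]
    have w0 : wt (6 * b) = 0 := by unfold wt; split_ifs <;> omega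
    have w1 : wt (6 * b + 1) = 0 := by unfold wt; split_ifs <;> omega
    have w2 : wt (6 * b + 1 + 1) = 6 := by unfold wt; split_ifs <;> omega
    have w3 : wt (6 * b + 1 + 1 + 1) = -12 := by unfold wt; split_ifs <;> omega
    have w4 : wt (6 * b + 1 + 1 + 1 + 1) = 6 := by unfold wt; split_ifs <;> omega
    have w5 : wt (6 * b + 1 + 1 + 1 + 1 + 1) = 0 := by unfold wt; split_ifs <;> omega
    rw [w0, w1, w2, w3, w4, w5]
    push_cast
    have d2 : 6 * z + (6 * (b : K) + 2) = 6 * (z + b) + 2 := by ring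
    have d3 : 6 * z + (6 * (b : K) + 3) = 6 * (z + b) + 3 := by ring
    have d4 : 6 * z + (6 * (b : K) + 4) = 6 * (z + b) + 4 := by ring
    rw [d2, d3, d4]
    ring

theorem aeval_bn (N : ℕ) (z : K) : aeval z (bn (ZMod p) N)
    = algebraMap (ZMod p) K ((N.factorial : ZMod p)⁻¹) * ∏ i ∈ range N, (z - (i : K)) := by
  unfold bn
  rw [map_mul, aeval_C, map_prod]
  congr 1
  refine Finset.prod_congr rfl fun i _ => ?_
  rw [map_sub, aeval_X, aeval_C, map_natCast]

theorem aeval_RR (m c a : ℕ) (t : K) : aeval t (RR (ZMod p) m c a)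
    = algebraMap (ZMod p) K (((6 * c * m).factorial : ZMod p)⁻¹) * ∑ h ∈ Ioo 0 (6 * c * a),
      ((wt h : ℤ) : K) * ∏ k ∈ (range (6 * c * m)).erase (6 * c * a - h),
        (((6 * c : ℕ) : K) * (t + (a : K)) - (k : K)) := by
  unfold RR
  rw [map_mul, aeval_C, map_sum]
  congr 1
  refine Finset.sum_congr rfl fun h _ => ?_
  rw [map_mul, aeval_C, map_prod, map_intCast]
  congr 1
  refine Finset.prod_congr rfl fun i _ => ?_
  rw [map_sub, map_mul, map_add, aeval_X, aeval_C, aeval_C, aeval_C, map_natCast, map_natCast,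
    map_natCast]

theorem bn_RR (m c a : ℕ) (ha : a ≤ m) (t : K)
    (ht : ∀ h : ℕ, (6 : K) * (c * t) + h ≠ 0) :
    aeval (((6 * c : ℕ) : K) * (t + a)) (bn (ZMod p) (6 * c * m)) *
      (∑ h ∈ range (6 * (c * a)), ((wt h : ℤ) : K) / (6 * ((c : K) * t) + h))
      = aeval t (RR (ZMod p) m c a) := by
  rw [aeval_bn, aeval_RR, mul_assoc]
  congr 1
  rw [Finset.mul_sum]
  have hr : range (6 * (c * a)) = (range (6 * c * a)) := by rw [mul_assoc]
  rw [hr]
  have hsub : Ioo 0 (6 * c * a) ⊆ range (6 * c * a) := by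
    intro h hh
    rw [mem_Ioo] at hh
    exact mem_range.2 hh.2
  rw [← Finset.sum_subset hsub]
  · refine Finset.sum_congr rfl fun h hh => ?_
    rw [mem_Ioo] at hh
    have hle : 6 * c * a ≤ 6 * c * m := Nat.mul_le_mul_left _ ha
    have hmem : 6 * c * a - h ∈ range (6 * c * m) := mem_range.2 (by omega)
    rw [← Finset.mul_prod_erase _ _ hmem]
    have hfac : ((6 * c : ℕ) : K) * (t + (a : K)) - ((6 * c * a - h : ℕ) : K)
        = 6 * (c * t) + h := by
      rw [Nat.cast_sub hh.2.le]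
      push_cast
      ring
    rw [hfac, mul_comm (6 * ((c : K) * t) + h), mul_assoc, mul_div_cancel₀ _ (ht h), mul_comm]
  · intro h h1 h2
    rw [mem_Ioo, mem_range] at *
    have h0 : h = 0 := by omega
    subst h0
    have w0 : wt 0 = 0 := rfl
    rw [w0]
    simp

theorem shift_K (hp : 7 ≤ p) (m c a : ℕ) (ha : a ≤ m) (hc0 : (c : ZMod p) ≠ 0) (t : K)
    (hgen : ∀ n : ℕ, ∀ k : ZMod p, (c : K) * t + n ≠ algebraMap (ZMod p) K k) :
    aeval (((6 * c : ℕ) : K) * (t + a)) (bn (ZMod p) (6 * c * m)) *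
      ((t ^ (p - 1) - 1) * aeval ((c : K) * (t + a)) (Lam p)
        - ((t + a) ^ (p - 1) - 1) * aeval ((c : K) * t) (Lam p))
    = (t ^ (p - 1) - 1) * ((t + a) ^ (p - 1) - 1) * aeval t (RR (ZMod p) m c a) := by
  have hz0 : ∀ k : ZMod p, (c : K) * t ≠ algebraMap (ZMod p) K k := by
    intro k
    have := hgen 0 k
    simpa using this
  have hz1 := hgen (c * a)
  have hadd := lamK_add hp ((c : K) * t) hz0 (c * a)
  have hL0 := aeval_Lam ((c : K) * t) hz0
  have hL1 := aeval_Lam ((c : K) * t + ((c * a : ℕ) : K)) hz1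
  have hcpow : (c : K) ^ (p - 1) = 1 := by
    have h := ZMod.pow_card_sub_one_eq_one hc0
    have h' := congrArg (algebraMap (ZMod p) K) h
    rwa [map_pow, map_natCast, map_one] at h'
  have hzz : (c : K) * t + ((c * a : ℕ) : K) = (c : K) * (t + a) := by
    push_cast
    ring
  have h6 : (6 : K) ≠ 0 := six_ne hp
  have ht : ∀ h : ℕ, (6 : K) * (c * t) + h ≠ 0 := by
    intro h hh
    apply hgen 0 (-(h : ZMod p) / 6)
    rw [map_div₀, map_neg, map_natCast, map_ofNat]
    field_simp
    push_cast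
    linear_combination hh
  rw [← hzz, hL0, hL1, hzz, mul_pow, mul_pow, hcpow, one_mul, one_mul]
  rw [hzz] at hadd
  rw [← bn_RR m c a ha t ht, ← hadd]
  ring

end LamShift

theorem lam_shift (p : ℕ) [Fact p.Prime] (hp : 7 ≤ p) (m c a : ℕ) (hc : 1 ≤ c) (ha : a < m)
    (hm : 6 * c * m < p) :
    (bn (ZMod p) (6 * c * m)).comp (C ((6 * c : ℕ) : ZMod p) * (X + C (a : ZMod p))) *
      ((X ^ (p - 1) - 1) * (Lam p).comp (C (c : ZMod p) * (X + C (a : ZMod p)))
        - ((X + C (a : ZMod p)) ^ (p - 1) - 1) * (Lam p).comp (C (c : ZMod p) * X))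
    = (X ^ (p - 1) - 1) * ((X + C (a : ZMod p)) ^ (p - 1) - 1) * RR (ZMod p) m c a := by
  have hcp : c < p := by
    have h1 : c * 1 ≤ c * m := Nat.mul_le_mul_left c (by omega)
    have h2 : 6 * c * m = 6 * (c * m) := by ring
    omega
  have hc0 : (c : ZMod p) ≠ 0 := by
    rw [Ne, ZMod.natCast_eq_zero_iff]
    intro h
    have := Nat.le_of_dvd (by omega) h
    omega
  have hι : Function.Injective (algebraMap (ZMod p)[X] (FractionRing (ZMod p)[X])) :=
    IsFractionRing.injective _ _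
  have hιa : ∀ f : (ZMod p)[X], algebraMap (ZMod p)[X] (FractionRing (ZMod p)[X]) f
      = aeval (algebraMap (ZMod p)[X] (FractionRing (ZMod p)[X]) X) f := by
    intro f
    rw [aeval_algebraMap_apply, aeval_X_left_apply]
  have hgen : ∀ n : ℕ, ∀ k : ZMod p,
      (c : FractionRing (ZMod p)[X]) * (algebraMap (ZMod p)[X] (FractionRing (ZMod p)[X]) X) + n
        ≠ algebraMap (ZMod p) (FractionRing (ZMod p)[X]) k := by
    intro n k h
    have h1 : algebraMap (ZMod p)[X] (FractionRing (ZMod p)[X])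
        (C (c : ZMod p) * X + C (n : ZMod p)) = algebraMap (ZMod p)[X] (FractionRing (ZMod p)[X])
          (C k) := by
      rw [map_add, map_mul, ← algebraMap_eq, ← IsScalarTower.algebraMap_apply,
        ← IsScalarTower.algebraMap_apply, ← IsScalarTower.algebraMap_apply, map_natCast,
        map_natCast]
      exact h
    have h2 := hι h1
    have h3 := congrArg (fun f => coeff f 1) h2
    simp only [coeff_add, coeff_C_mul, coeff_X_one, coeff_C_of_ne_zero (by norm_num : (1:ℕ) ≠ 0),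
      mul_one, add_zero] at h3
    exact hc0 h3
  have main := shift_K hp m c a ha.le hc0
    (algebraMap (ZMod p)[X] (FractionRing (ZMod p)[X]) X) hgen
  apply hι
  rw [hιa (_ * RR _ _ _ _), hιa]
  simp only [map_mul, map_sub, map_add, map_pow, map_one, aeval_comp, aeval_X,
    map_natCast]
  exact main

end H22OD
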