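import Pool.Agent.H22.OD.RsDefs

/-!
# OD: numerator and denominator of `ρ_(c+1)` (see `RsDefs`)
-/
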