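import Pool.Agent.H22.OD.Zero

/-!
# OD RRs.
PROOF. `(6cX + h) * ∏_{k ≠ 6ca-h} (6c(X+a) - k) = ∏_{k<6cm} (6c(X+a) - k)` for `0 < h < 6ca`, `a < m`.
-/

namespace H22OD

open Finset Polynomial

theorem RR_eq (m c a : ℕ) (hc : 1 ≤ c) (ha : a < m) :
    ((RR ℚ m c a : ℚ[X]) : PowerSeries ℚ) =
      (((bn ℚ (6 * c * m)).comp (C ((6 * c : ℕ) : ℚ) * (X + C (a : ℚ))) : ℚ[X]) : PowerSeries ℚ)
        * rs c a := by
  have hcomp : (bn ℚ (6 * c * m)).comp (C ((6 * c : ℕ) : ℚ) * (X + C (a : ℚ))) =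
      C (((6 * c * m).factorial : ℚ)⁻¹) *
        ∏ k ∈ range (6 * c * m), (C ((6 * c : ℕ) : ℚ) * (X + C (a : ℚ)) - C (k : ℚ)) := by
    unfold bn
    rw [mul_comp, C_comp, Polynomial.prod_comp]
    congr 1
    refine Finset.prod_congr rfl fun k _ => ?_
    rw [sub_comp, X_comp, C_comp]
  rw [hcomp]
  unfold RR rs
  rw [Polynomial.coe_mul, Polynomial.coe_mul, Polynomial.coe_C, mul_assoc (PowerSeries.C _)]
  congr 1
  rw [Finset.mul_sum, ← Polynomial.coeToPowerSeries.ringHom_apply, map_sum]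
  refine Finset.sum_congr rfl fun h hh => ?_
  rw [Finset.mem_Ioo] at hh
  have hlt : 6 * c * a < 6 * c * m := by
    apply Nat.mul_lt_mul_of_pos_left ha
    omega
  have hk : 6 * c * a - h ∈ range (6 * c * m) := by
    rw [Finset.mem_range]
    omega
  rw [← Finset.mul_prod_erase (range (6 * c * m)) _ hk]
  have hfac : (C ((6 * c : ℕ) : ℚ) * (X + C (a : ℚ)) - C (((6 * c * a - h : ℕ)) : ℚ) : ℚ[X]) =
      C (h : ℚ) + C ((6 * c : ℕ) : ℚ) * X := by
    have h1 : (((6 * c * a - h : ℕ)) : ℚ) = ((6 * c : ℕ) : ℚ) * a - h := by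
      rw [Nat.cast_sub hh.2.le]
      push_cast
      ring
    rw [h1, C_sub, C_mul]
    ring
  rw [hfac]
  rw [Polynomial.coeToPowerSeries.ringHom_apply, Polynomial.coe_mul, Polynomial.coe_C,
    Polynomial.coe_mul, Polynomial.coe_add, Polynomial.coe_mul, Polynomial.coe_C,
    Polynomial.coe_C, Polynomial.coe_X]
  have hne : PowerSeries.constantCoeff (PowerSeries.C (h : ℚ) +
      PowerSeries.C ((6 * c : ℕ) : ℚ) * PowerSeries.X) ≠ 0 := by
    simp only [map_add, PowerSeries.constantCoeff_C, map_mul, PowerSeries.constantCoeff_X,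
      mul_zero, add_zero]
    exact_mod_cast hh.1.ne'
  have hinv := PowerSeries.mul_inv_cancel _ hne
  linear_combination (-(PowerSeries.C ((wt h : ℤ) : ℚ)) *
    ((∏ k ∈ (range (6 * c * m)).erase (6 * c * a - h),
      (C ((6 * c : ℕ) : ℚ) * (X + C (a : ℚ)) - C (k : ℚ)) : ℚ[X]) : PowerSeries ℚ)) * hinv

end H22OD
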