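import Pool.Agent.H22.OD.Defs
import Pool.Agent.H11.NW.Red
import Pool.Agent.H11.NW.Integ

/-!
# OD RedMat.
PROOF. `RedP f g := ∀ i, Red p (f.coeff i) (g.coeff i)` is stable under sums, products, powers, `C`, `X`,
`comp (X + C a)`; factorials `N!` with `N < p` are units mod `p`.  `den_prime`: the prime factors of
`lcmUpto n` are `≤ n`.
-/

namespace H22OD

open Finset Polynomial

open Pool.Agent.H11.NW (Red)

/-- all coefficients are `p`-integral, with the given residues -/
def RedP (p : ℕ) (f : ℚ[X]) (g : (ZMod p)[X]) : Prop := ∀ i, Red p (f.coeff i) (g.coeff i)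

section

variable {p : ℕ} [hpf : Fact p.Prime]

theorem RedP.C {a : ℚ} {b : ZMod p} (h : Red p a b) :
    RedP p (Polynomial.C a) (Polynomial.C b) := by
  intro i
  rw [coeff_C, coeff_C]
  split_ifs
  · exact h
  · exact Red.zero

theorem RedP.X : RedP p (Polynomial.X) (Polynomial.X) := by
  intro i
  rw [coeff_X, coeff_X]
  split_ifs
  · exact Red.one
  · exact Red.zero

theorem RedP.zero : RedP p 0 0 := by
  intro i
  simpa using Red.zero (p := p)

theorem RedP.one : RedP p 1 1 := by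
  simpa using RedP.C (Red.one (p := p))

theorem RedP.add {f f' : ℚ[X]} {g g' : (ZMod p)[X]} (h : RedP p f g) (h' : RedP p f' g') :
    RedP p (f + f') (g + g') := by
  intro i
  rw [coeff_add, coeff_add]
  exact (h i).add (h' i)

theorem RedP.sub {f f' : ℚ[X]} {g g' : (ZMod p)[X]} (h : RedP p f g) (h' : RedP p f' g') :
    RedP p (f - f') (g - g') := by
  intro i
  rw [coeff_sub, coeff_sub]
  exact (h i).sub (h' i)

theorem RedP.mul {f f' : ℚ[X]} {g g' : (ZMod p)[X]} (h : RedP p f g) (h' : RedP p f' g') :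
    RedP p (f * f') (g * g') := by
  intro i
  rw [coeff_mul, coeff_mul]
  exact Red.sum _ fun x _ => (h _).mul (h' _)

theorem RedP.pow {f : ℚ[X]} {g : (ZMod p)[X]} (h : RedP p f g) (n : ℕ) :
    RedP p (f ^ n) (g ^ n) := by
  induction n with
  | zero => simpa using RedP.one
  | succ n ih => rw [pow_succ, pow_succ]; exact ih.mul h

theorem RedP.sum {ι : Type*} (s : Finset ι) {f : ι → ℚ[X]} {g : ι → (ZMod p)[X]}
    (h : ∀ i ∈ s, RedP p (f i) (g i)) : RedP p (∑ i ∈ s, f i) (∑ i ∈ s, g i) := by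
  intro i
  rw [finset_sum_coeff, finset_sum_coeff]
  exact Red.sum _ fun j hj => h j hj i

theorem RedP.prod {ι : Type*} (s : Finset ι) {f : ι → ℚ[X]} {g : ι → (ZMod p)[X]}
    (h : ∀ i ∈ s, RedP p (f i) (g i)) : RedP p (∏ i ∈ s, f i) (∏ i ∈ s, g i) := by
  classical
  induction s using Finset.induction_on with
  | empty => simpa using RedP.one
  | insert a s ha ih =>
    rw [Finset.prod_insert ha, Finset.prod_insert ha]
    exact (h a (Finset.mem_insert_self a s)).mul
      (ih fun i hi => h i (Finset.mem_insert_of_mem hi))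

theorem RedP.comp {f f' : ℚ[X]} {g g' : (ZMod p)[X]} (h : RedP p f g) (h' : RedP p f' g') :
    RedP p (f.comp f') (g.comp g') := by
  unfold Polynomial.comp
  rw [eval₂_eq_sum_range' (n := max f.natDegree g.natDegree + 1) _ (by omega),
    eval₂_eq_sum_range' (n := max f.natDegree g.natDegree + 1) _ (by omega)]
  exact RedP.sum _ fun i _ => (RedP.C (h i)).mul (h'.pow i)

theorem fact_ne {N : ℕ} (h : N < p) : ((N.factorial : ℕ) : ZMod p) ≠ 0 := by
  rw [Ne, ZMod.natCast_eq_zero_iff, hpf.out.dvd_factorial]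
  omega

theorem redP_bn {N : ℕ} (h : N < p) : RedP p (bn ℚ N) (bn (ZMod p) N) := by
  unfold bn
  exact (RedP.C ((Red.nat _).inv (fact_ne h))).mul
    (RedP.prod _ fun i _ => RedP.X.sub (RedP.C (Red.nat i)))

theorem redP_PB {x i : ℕ} (hx0 : 0 < x) (hx : x < p) : RedP p (PB ℚ x i) (PB (ZMod p) x i) := by
  unfold PB
  exact ((redP_bn hx).pow _).mul (redP_bn ((Nat.mod_lt i hx0).trans hx))

theorem redP_XC (a : ℕ) :
    RedP p (Polynomial.X + Polynomial.C (a : ℚ)) (Polynomial.X + Polynomial.C (a : ZMod p)) :=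
  RedP.X.add (RedP.C (Red.nat a))

theorem redP_RR {m c a : ℕ} (h : 6 * c * m < p) : RedP p (RR ℚ m c a) (RR (ZMod p) m c a) := by
  unfold RR
  refine (RedP.C ((Red.nat _).inv (fact_ne h))).mul (RedP.sum _ fun j _ => ?_)
  refine (RedP.C (Red.int _)).mul (RedP.prod _ fun k _ => ?_)
  exact ((RedP.C (Red.nat _)).mul (redP_XC a)).sub (RedP.C (Red.nat k))

end

theorem mat_red (w x p : ℕ) [Fact p.Prime] (hp : 6 * w * (w * x) < p) (hx : x < p)
    (r : Row w x) (c : Col w x) :
    Pool.Agent.H11.NW.Red p (Mat ℚ w x r c) (Mat (ZMod p) w x r c) := by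
  rcases c with ⟨e, i⟩ | ⟨c, i⟩
  · have hx0 : 0 < x := by
      rcases Nat.eq_zero_or_pos x with h | h
      · subst h
        exact absurd i.2 (by simp)
      · exact h
    exact ((redP_PB hx0 hx).comp (redP_XC _)).mul (RedP.X.pow _) _
  · have hx0 : 0 < x := by
      rcases Nat.eq_zero_or_pos x with h | h
      · subst h
        exact absurd i.2 (by simp)
      · exact h
    have hc : 6 * (c.val + 1) * (w * x) < p := by
      refine lt_of_le_of_lt ?_ hp
      exact Nat.mul_le_mul_right _ (Nat.mul_le_mul_left _ (by have := c.2; omega))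
    exact ((redP_PB hx0 hx).comp (redP_XC _)).mul (redP_RR hc) _

theorem lcmUpto_prime {p n : ℕ} (hpp : p.Prime) (h : n < p) : ¬ p ∣ Nat.lcmUpto n := by
  intro hd
  have h1 := hd.trans (Nat.lcmUpto_dvd_factorial n)
  rw [hpp.dvd_factorial] at h1
  omega

theorem den_prime (w x p : ℕ) (hpp : p.Prime) (hp : 6 * w * (w * x) < p) (hx : x < p) :
    ¬ p ∣ Dn w x := by
  unfold Dn
  intro h
  rcases hpp.dvd_or_dvd h with h | h
  · exact lcmUpto_prime hpp hx (hpp.dvd_of_dvd_pow h)
  · obtain ⟨k, -, hk⟩ := (hpp.prime.dvd_finset_prod_iff _).1 h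
    exact lcmUpto_prime hpp (lt_of_le_of_lt (Nat.div_le_self _ _) hp) hk

end H22OD
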