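import Pool.Agent.H22.OD.Defs

/-!
# OD RsDefs: definitions for the zero estimate (`rs`, `denC`, `numC`).
-/

namespace H22OD

open Finset Polynomial

/-- `R_{ca}(cy)` -/
noncomputable def rs (c a : ℕ) : PowerSeries ℚ :=
  ∑ h ∈ Ioo 0 (6 * c * a), PowerSeries.C ((wt h : ℤ) : ℚ) *
    (PowerSeries.C (h : ℚ) + PowerSeries.C ((6 * c : ℕ) : ℚ) * PowerSeries.X)⁻¹

/-- the common denominator of `ρ_(c+1)(X) = ∑_{0<h<6(c+1)} w_h / (6(c+1)X + h)` -/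
noncomputable def denC (c : ℕ) : ℚ[X] :=
  ∏ h ∈ Ioo 0 (6 * (c + 1)), (C ((6 * (c + 1) : ℕ) : ℚ) * X + C (h : ℚ))

/-- the numerator of `ρ_(c+1)` over `denC c` -/
noncomputable def numC (c : ℕ) : ℚ[X] :=
  ∑ h ∈ Ioo 0 (6 * (c + 1)), C ((wt h : ℤ) : ℚ) *
    ∏ k ∈ (Ioo 0 (6 * (c + 1))).erase h, (C ((6 * (c + 1) : ℕ) : ℚ) * X + C (k : ℚ))

end H22OD
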