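import Pool.Agent.H22.OD.RsDefs

/-!
# OD RsStep: the recursion `rs (c+1) (a+1) - rs (c+1) a = ρ_(c+1)(a+X)`, cleared of denominators.
-/

namespace H22OD

open Finset Polynomial

private theorem wt_add (h k : ℕ) : wt (h + 6 * k) = wt h := by
  unfold wt
  rw [Nat.add_mul_mod_self_left]

private theorem wt_mul (k : ℕ) : wt (6 * k) = 0 := by
  unfold wt
  rw [Nat.mul_mod_right]
  simp

/-- the factor `6c(a+X) + h` -/
private theorem lin_comp (c a h : ℕ) :
    (((C ((6 * (c + 1) : ℕ) : ℚ) * X + C (h : ℚ)).comp (X + C (a : ℚ)) : ℚ[X]) : PowerSeries ℚ)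
      = PowerSeries.C ((6 * (c + 1) * a + h : ℕ) : ℚ)
        + PowerSeries.C ((6 * (c + 1) : ℕ) : ℚ) * PowerSeries.X := by
  rw [add_comp, mul_comp, C_comp, X_comp, C_comp]
  rw [Polynomial.coe_add, Polynomial.coe_mul, Polynomial.coe_add, Polynomial.coe_C,
    Polynomial.coe_C, Polynomial.coe_X, Polynomial.coe_C]
  have : ((6 * (c + 1) * a + h : ℕ) : ℚ) = ((6 * (c + 1) : ℕ) : ℚ) * (a : ℚ) + (h : ℚ) := by
    push_cast
    ring
  rw [this, map_add, map_mul]
  ring

theorem rs_diff (c a : ℕ) : rs (c + 1) (a + 1) - rs (c + 1) a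
    = ∑ h ∈ Ioo 0 (6 * (c + 1)), PowerSeries.C ((wt h : ℤ) : ℚ) *
      (PowerSeries.C ((6 * (c + 1) * a + h : ℕ) : ℚ)
        + PowerSeries.C ((6 * (c + 1) : ℕ) : ℚ) * PowerSeries.X)⁻¹ := by
  classical
  set F : ℕ → PowerSeries ℚ := fun h => PowerSeries.C ((wt h : ℤ) : ℚ) *
    (PowerSeries.C (h : ℚ) + PowerSeries.C ((6 * (c + 1) : ℕ) : ℚ) * PowerSeries.X)⁻¹ with hF
  have h0 : ∀ k : ℕ, F (6 * k) = 0 := by
    intro k
    rw [hF]
    simp only
    rw [wt_mul]
    simp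
  have hrs : ∀ b : ℕ, rs (c + 1) b = ∑ h ∈ range (6 * (c + 1) * b), F h := by
    intro b
    rcases Nat.eq_zero_or_pos b with rfl | hb
    · simp [rs]
    · have h1 : range (6 * (c + 1) * b) = insert 0 (Ioo 0 (6 * (c + 1) * b)) := by
        ext x
        have : 0 < 6 * (c + 1) * b := by positivity
        simp only [mem_range, mem_insert, mem_Ioo]
        omega
      rw [h1, sum_insert (by simp), show F 0 = 0 from h0 0, zero_add]
      rfl
  rw [hrs, hrs, show 6 * (c + 1) * (a + 1) = 6 * (c + 1) * a + 6 * (c + 1) by ring,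
    sum_range_add_sub_sum_range]
  have h2 : range (6 * (c + 1)) = insert 0 (Ioo 0 (6 * (c + 1))) := by
    ext x
    simp only [mem_range, mem_insert, mem_Ioo]
    omega
  rw [h2, sum_insert (by simp)]
  have h3 : F (6 * (c + 1) * a + 0) = 0 := by
    have := h0 ((c + 1) * a)
    rwa [← mul_assoc] at this
  rw [h3, zero_add]
  refine sum_congr rfl fun h _ => ?_
  rw [hF]
  simp only
  rw [show 6 * (c + 1) * a + h = h + 6 * ((c + 1) * a) by ring, wt_add]

theorem rs_step (c a : ℕ) :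
    (rs (c + 1) (a + 1) - rs (c + 1) a) * (((denC c).comp (X + C (a : ℚ)) : ℚ[X]) : PowerSeries ℚ)
      = (((numC c).comp (X + C (a : ℚ)) : ℚ[X]) : PowerSeries ℚ) := by
  classical
  have hden : (((denC c).comp (X + C (a : ℚ)) : ℚ[X]) : PowerSeries ℚ)
      = ∏ h ∈ Ioo 0 (6 * (c + 1)), (PowerSeries.C ((6 * (c + 1) * a + h : ℕ) : ℚ)
        + PowerSeries.C ((6 * (c + 1) : ℕ) : ℚ) * PowerSeries.X) := by
    rw [denC, Polynomial.prod_comp, ← Polynomial.coeToPowerSeries.ringHom_apply, map_prod]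
    refine prod_congr rfl fun h _ => ?_
    rw [Polynomial.coeToPowerSeries.ringHom_apply, lin_comp]
  have hnum : (((numC c).comp (X + C (a : ℚ)) : ℚ[X]) : PowerSeries ℚ)
      = ∑ h ∈ Ioo 0 (6 * (c + 1)), PowerSeries.C ((wt h : ℤ) : ℚ) *
        ∏ k ∈ (Ioo 0 (6 * (c + 1))).erase h, (PowerSeries.C ((6 * (c + 1) * a + k : ℕ) : ℚ)
        + PowerSeries.C ((6 * (c + 1) : ℕ) : ℚ) * PowerSeries.X) := by
    rw [numC, ← Polynomial.coe_compRingHom_apply, map_sum,
      ← Polynomial.coeToPowerSeries.ringHom_apply, map_sum]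
    refine sum_congr rfl fun h _ => ?_
    rw [Polynomial.coe_compRingHom_apply, mul_comp, C_comp, map_mul, Polynomial.prod_comp, map_prod]
    rw [Polynomial.coeToPowerSeries.ringHom_apply, Polynomial.coe_C]
    congr 1
    refine prod_congr rfl fun k _ => ?_
    rw [Polynomial.coeToPowerSeries.ringHom_apply, lin_comp]
  rw [hden, hnum, rs_diff, sum_mul]
  refine sum_congr rfl fun h hh => ?_
  rw [← mul_prod_erase _ _ hh, mul_assoc, ← mul_assoc _⁻¹, PowerSeries.inv_mul_cancel, one_mul]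
  rw [map_add, map_mul, PowerSeries.constantCoeff_X, mul_zero, add_zero,
    PowerSeries.constantCoeff_C]
  rw [mem_Ioo] at hh
  exact_mod_cast (by omega : 6 * (c + 1) * a + h ≠ 0)

end H22OD
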