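import Pool.Agent.H22.OD.Defs

/-!
# OD Size.
PROOF. Let `|f|₁` be the sum of the absolute values of the coefficients (submultiplicative, bounds every
coefficient).  For `a < m = w x`, `t ≤ x`: `|binom(a+y,t)|₁ ≤ ∏_{i<t} (|a-i|+1)/t! ≤ m^t/t! ≤ e^m` and
for `t = x`: `≤ (w x)^x/x! ≤ (e w)^x` (`Real.pow_div_factorial_le_exp`).  So
`|PB(a+y)|₁ ≤ (e w)^(x w^3/4) e^(w x)`.  `|RR m c a|₁ ≤ (1/M!) ∑_h 12 ∏_{k≠} (|6ca-k| + 6c) ≤
12 M (M+6c)^M/M! ≤ 12 M e^(M+6c)` with `M = 6cm ≤ 6 w^2 x` (one factor less: use `M + 6c ≥ 1`).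
All exponents are `O(w^3 (1 + log w) x)`.
-/

namespace H22OD

open Finset Polynomial

/-- `f` has a majorant with nonnegative coefficients of sum at most `B` -/
private def P1 (f : ℚ[X]) (B : ℝ) : Prop :=
  ∃ g : ℝ[X], (∀ i, |((f.coeff i : ℚ) : ℝ)| ≤ g.coeff i) ∧ g.eval 1 ≤ B

private theorem eval_one_ge (g : ℝ[X]) (h : ∀ i, 0 ≤ g.coeff i) (i : ℕ) : g.coeff i ≤ g.eval 1 := by
  rw [Polynomial.eval_eq_sum_range]
  simp only [one_pow, mul_one]
  rcases le_or_gt i g.natDegree with hi | hi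
  · exact Finset.single_le_sum (f := fun i => g.coeff i) (fun j _ => h j)
      (Finset.mem_range.2 (Nat.lt_succ_of_le hi))
  · rw [Polynomial.coeff_eq_zero_of_natDegree_lt hi]
    exact Finset.sum_nonneg fun j _ => h j

private theorem P1.coeff {f : ℚ[X]} {B : ℝ} (h : P1 f B) (i : ℕ) : |((f.coeff i : ℚ) : ℝ)| ≤ B := by
  obtain ⟨g, hg, hB⟩ := h
  exact (hg i).trans ((eval_one_ge g (fun j => (abs_nonneg _).trans (hg j)) i).trans hB)

private theorem P1.nonneg {f : ℚ[X]} {B : ℝ} (h : P1 f B) : 0 ≤ B :=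
  (abs_nonneg _).trans (h.coeff 0)

private theorem P1.mono {f : ℚ[X]} {B B' : ℝ} (h : P1 f B) (hB : B ≤ B') : P1 f B' := by
  obtain ⟨g, hg, hb⟩ := h
  exact ⟨g, hg, hb.trans hB⟩

private theorem P1.mul {f f' : ℚ[X]} {B B' : ℝ} (h : P1 f B) (h' : P1 f' B') : P1 (f * f') (B * B') := by
  have hB := h.nonneg
  obtain ⟨g, hg, hb⟩ := h
  obtain ⟨g', hg', hb'⟩ := h'
  refine ⟨g * g', fun i => ?_, ?_⟩
  · rw [Polynomial.coeff_mul, Polynomial.coeff_mul, Rat.cast_sum]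
    refine (Finset.abs_sum_le_sum_abs _ _).trans (Finset.sum_le_sum fun x _ => ?_)
    rw [Rat.cast_mul, abs_mul]
    exact mul_le_mul (hg _) (hg' _) (abs_nonneg _) ((abs_nonneg _).trans (hg _))
  · rw [Polynomial.eval_mul]
    exact mul_le_mul hb hb' ((abs_nonneg _).trans ((hg' 0).trans
      (eval_one_ge g' (fun j => (abs_nonneg _).trans (hg' j)) 0))) hB

private theorem P1.sum {ι : Type*} (s : Finset ι) (f : ι → ℚ[X]) (B : ι → ℝ) (h : ∀ i ∈ s, P1 (f i) (B i)) :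
    P1 (∑ i ∈ s, f i) (∑ i ∈ s, B i) := by
  classical
  induction s using Finset.induction_on with
  | empty => exact ⟨0, fun i => by simp, by simp⟩
  | insert a s ha ih =>
    obtain ⟨g, hg, hb⟩ := h a (mem_insert_self a s)
    obtain ⟨g', hg', hb'⟩ := ih fun i hi => h i (mem_insert_of_mem hi)
    refine ⟨g + g', fun i => ?_, ?_⟩
    · rw [Finset.sum_insert ha, Polynomial.coeff_add, Polynomial.coeff_add, Rat.cast_add]
      exact (abs_add_le _ _).trans (add_le_add (hg i) (hg' i))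
    · rw [Finset.sum_insert ha, Polynomial.eval_add]
      exact add_le_add hb hb'

private theorem P1.const (u : ℚ) : P1 (Polynomial.C u) |(u : ℝ)| := by
  refine ⟨Polynomial.C |(u : ℝ)|, fun i => ?_, ?_⟩
  · rw [Polynomial.coeff_C, Polynomial.coeff_C]
    split_ifs <;> simp
  · rw [Polynomial.eval_C]

private theorem P1.one : P1 1 1 := by
  have := P1.const 1
  simpa using this

private theorem P1.X : P1 (Polynomial.X : ℚ[X]) 1 := by
  refine ⟨Polynomial.X, fun i => ?_, by simp⟩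
  rw [Polynomial.coeff_X, Polynomial.coeff_X]
  split_ifs <;> simp

private theorem P1.add {f f' : ℚ[X]} {B B' : ℝ} (h : P1 f B) (h' : P1 f' B') : P1 (f + f') (B + B') := by
  obtain ⟨g, hg, hb⟩ := h
  obtain ⟨g', hg', hb'⟩ := h'
  refine ⟨g + g', fun i => ?_, ?_⟩
  · rw [Polynomial.coeff_add, Polynomial.coeff_add, Rat.cast_add]
    exact (abs_add_le _ _).trans (add_le_add (hg i) (hg' i))
  · rw [Polynomial.eval_add]
    exact add_le_add hb hb'

private theorem P1.prod {ι : Type*} (s : Finset ι) (f : ι → ℚ[X]) (B : ι → ℝ)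
    (h : ∀ i ∈ s, P1 (f i) (B i)) : P1 (∏ i ∈ s, f i) (∏ i ∈ s, B i) := by
  classical
  induction s using Finset.induction_on with
  | empty => simpa using P1.one
  | insert a s ha ih =>
    rw [Finset.prod_insert ha, Finset.prod_insert ha]
    exact (h a (mem_insert_self a s)).mul (ih fun i hi => h i (mem_insert_of_mem hi))

private theorem P1.pow {f : ℚ[X]} {B : ℝ} (h : P1 f B) (n : ℕ) : P1 (f ^ n) (B ^ n) := by
  induction n with
  | zero => simpa using P1.one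
  | succ n ih =>
    rw [pow_succ, pow_succ]
    exact ih.mul h

/-- linear factors -/
private theorem P1.lin (u v : ℚ) : P1 (Polynomial.C u * Polynomial.X + Polynomial.C v) (|(u : ℝ)| + |(v : ℝ)|) := by
  have := ((P1.const u).mul P1.X).add (P1.const v)
  rwa [mul_one] at this

/-- `binom(a + y, N)` -/
private theorem bn_bound (w x a N : ℕ) (hw : 1 ≤ w) (ha : a < w * x) (hN : N ≤ x) :
    P1 ((bn ℚ N).comp (X + C (a : ℚ))) (((w * x : ℕ) : ℝ) ^ N / (N.factorial : ℝ)) := by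
  have hx : x ≤ w * x := Nat.le_mul_of_pos_left x hw
  have e : (bn ℚ N).comp (X + C (a : ℚ)) =
      C ((N.factorial : ℚ)⁻¹) * ∏ i ∈ range N, (C (1 : ℚ) * X + C ((a : ℚ) - (i : ℚ))) := by
    unfold bn
    rw [Polynomial.mul_comp, Polynomial.C_comp, Polynomial.prod_comp]
    congr 1
    refine Finset.prod_congr rfl fun i _ => ?_
    rw [Polynomial.sub_comp, Polynomial.X_comp, Polynomial.C_comp, C_sub, C_1, one_mul]
    ring
  rw [e]
  have h1 : ∀ i ∈ range N, P1 (C (1 : ℚ) * X + C ((a : ℚ) - (i : ℚ))) ((w * x : ℕ) : ℝ) := by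
    intro i hi
    have hiN := Finset.mem_range.1 hi
    refine (P1.lin 1 ((a : ℚ) - (i : ℚ))).mono ?_
    push_cast
    rw [abs_one]
    have ha' : (a : ℝ) + 1 ≤ (w : ℝ) * x := by exact_mod_cast ha
    have hi' : (i : ℝ) + 1 ≤ (w : ℝ) * x := by exact_mod_cast (lt_of_lt_of_le hiN (hN.trans hx))
    have h0a : (0 : ℝ) ≤ a := Nat.cast_nonneg a
    have h0i : (0 : ℝ) ≤ i := Nat.cast_nonneg i
    rcases abs_cases ((a : ℝ) - (i : ℝ)) with ⟨h, -⟩ | ⟨h, -⟩ <;> rw [h] <;> linarith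
  have h2 := P1.prod (range N) _ _ h1
  rw [Finset.prod_const, Finset.card_range] at h2
  have h3 := (P1.const ((N.factorial : ℚ)⁻¹)).mul h2
  refine h3.mono (le_of_eq ?_)
  push_cast
  rw [abs_of_nonneg (by positivity)]
  ring

/-- `PB(a + y)` -/
private theorem PB_bound (w x a i : ℕ) (hw : 1 ≤ w) (hx : 1 ≤ x) (ha : a < w * x) (hi : i < w ^ 3 / 4 * x) :
    P1 ((PB ℚ x i).comp (X + C (a : ℚ)))
      (Real.exp ((1 + Real.log w) * x * w ^ 3 + w * x)) := by
  have hw0 : (0 : ℝ) < w := by exact_mod_cast hw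
  have hx0 : (0 : ℝ) < x := by exact_mod_cast hx
  have hlog : 0 ≤ Real.log w := Real.log_nonneg (by exact_mod_cast hw)
  have e : (PB ℚ x i).comp (X + C (a : ℚ)) =
      ((bn ℚ x).comp (X + C (a : ℚ))) ^ (i / x) * (bn ℚ (i % x)).comp (X + C (a : ℚ)) := by
    unfold PB
    rw [Polynomial.mul_comp, Polynomial.pow_comp]
  rw [e]
  have h1 : P1 ((bn ℚ x).comp (X + C (a : ℚ))) (Real.exp ((1 + Real.log w) * x)) := by
    refine (bn_bound w x a x hw ha le_rfl).mono ?_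
    have h2 : (x : ℝ) ^ x / (x.factorial : ℝ) ≤ Real.exp x := Real.pow_div_factorial_le_exp _ hx0.le _
    have h3 : ((w * x : ℕ) : ℝ) ^ x / (x.factorial : ℝ) = (w : ℝ) ^ x * ((x : ℝ) ^ x / (x.factorial : ℝ)) := by
      push_cast
      rw [mul_pow]
      ring
    rw [h3]
    have h4 : (w : ℝ) ^ x = Real.exp (Real.log w * x) := by
      rw [Real.exp_mul, Real.exp_log hw0, Real.rpow_natCast]
    calc (w : ℝ) ^ x * ((x : ℝ) ^ x / (x.factorial : ℝ)) ≤ (w : ℝ) ^ x * Real.exp x :=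
          mul_le_mul_of_nonneg_left h2 (by positivity)
      _ = Real.exp ((1 + Real.log w) * x) := by
          rw [h4, ← Real.exp_add]
          congr 1
          ring
  have h2 : P1 ((bn ℚ (i % x)).comp (X + C (a : ℚ))) (Real.exp (w * x)) := by
    refine (bn_bound w x a (i % x) hw ha (Nat.mod_lt _ hx).le).mono ?_
    have := Real.pow_div_factorial_le_exp ((w * x : ℕ) : ℝ) (by positivity) (i % x)
    rwa [Nat.cast_mul] at this ⊢
  have h3 := (h1.pow (i / x)).mul h2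
  refine h3.mono ?_
  rw [← Real.exp_nat_mul, ← Real.exp_add]
  apply Real.exp_le_exp.2
  have h4 : i / x ≤ w ^ 3 := by
    have : i / x < w ^ 3 / 4 := (Nat.div_lt_iff_lt_mul hx).2 hi
    omega
  have h5 : ((i / x : ℕ) : ℝ) ≤ (w : ℝ) ^ 3 := by exact_mod_cast h4
  have h6 : ((i / x : ℕ) : ℝ) * ((1 + Real.log w) * x) ≤ (w : ℝ) ^ 3 * ((1 + Real.log w) * x) :=
    mul_le_mul_of_nonneg_right h5 (by positivity)
  linarith

private theorem wt_abs (h : ℕ) : |((wt h : ℤ) : ℝ)| ≤ 12 := by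
  unfold wt
  split_ifs <;> norm_num

/-- `RR m c a` -/
private theorem RR_bound (m c a : ℕ) (hc : 1 ≤ c) (ha : a < m) :
    P1 (RR ℚ m c a) (Real.exp (13 * (6 * c * m) + 6 * c)) := by
  set M : ℕ := 6 * c * m with hM
  have hca : 6 * c * a ≤ M := Nat.mul_le_mul_left _ ha.le
  have hM1 : 1 ≤ M := by
    have : 0 < 6 * c * m := Nat.mul_pos (Nat.mul_pos (by norm_num) hc) (by omega)
    omega
  have h1 : ∀ h ∈ Ioo 0 (6 * c * a), P1 (C ((wt h : ℤ) : ℚ) *
      ∏ k ∈ (range M).erase (6 * c * a - h), (C ((6 * c : ℕ) : ℚ) * (X + C (a : ℚ)) - C (k : ℚ)))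
      (12 * ((M : ℝ) + 6 * c) ^ M) := by
    intro h hh
    have hk : ∀ k ∈ (range M).erase (6 * c * a - h),
        P1 (C ((6 * c : ℕ) : ℚ) * (X + C (a : ℚ)) - C (k : ℚ)) ((M : ℝ) + 6 * c) := by
      intro k hk
      have hkM : k < M := Finset.mem_range.1 (Finset.mem_of_mem_erase hk)
      have e : C ((6 * c : ℕ) : ℚ) * (X + C (a : ℚ)) - C (k : ℚ) =
          C ((6 * c : ℕ) : ℚ) * X + C (((6 * c : ℕ) : ℚ) * a - k) := by
        rw [C_sub, C_mul]
        ring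
      rw [e]
      refine (P1.lin _ _).mono ?_
      push_cast
      have h1 : (6 : ℝ) * c * a ≤ M := by exact_mod_cast hca
      have h2 : (k : ℝ) ≤ M := by exact_mod_cast hkM.le
      have h3 : (0 : ℝ) ≤ 6 * c * a := by positivity
      have h4 : (0 : ℝ) ≤ k := Nat.cast_nonneg k
      rw [abs_of_nonneg (by positivity : (0 : ℝ) ≤ 6 * c)]
      rcases abs_cases ((6 : ℝ) * c * a - (k : ℝ)) with ⟨h, -⟩ | ⟨h, -⟩ <;> rw [h] <;> linarith
    have h2 := P1.prod _ _ _ hk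
    rw [Finset.prod_const] at h2
    have h3 := (P1.const ((wt h : ℤ) : ℚ)).mul h2
    refine h3.mono ?_
    have h4 : |((((wt h : ℤ) : ℚ) : ℝ))| ≤ 12 := by
      have := wt_abs h
      simpa using this
    have hb1 : (1 : ℝ) ≤ (M : ℝ) + 6 * c := by
      have : (1 : ℝ) ≤ M := by exact_mod_cast hM1
      have : (0 : ℝ) ≤ 6 * (c : ℝ) := by positivity
      linarith
    have h5 : ((M : ℝ) + 6 * c) ^ ((range M).erase (6 * c * a - h)).card ≤ ((M : ℝ) + 6 * c) ^ M := by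
      refine pow_le_pow_right₀ hb1 ?_
      refine (Finset.card_le_card (Finset.erase_subset _ _)).trans ?_
      rw [Finset.card_range]
    exact mul_le_mul h4 h5 (by positivity) (by norm_num)
  have h2 := P1.sum (Ioo 0 (6 * c * a)) _ _ h1
  rw [Finset.sum_const, nsmul_eq_mul] at h2
  have h3 := (P1.const ((M.factorial : ℚ)⁻¹)).mul h2
  have e : RR ℚ m c a = C ((M.factorial : ℚ)⁻¹) * ∑ h ∈ Ioo 0 (6 * c * a),
      (C ((wt h : ℤ) : ℚ) * ∏ k ∈ (range M).erase (6 * c * a - h),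
        (C ((6 * c : ℕ) : ℚ) * (X + C (a : ℚ)) - C (k : ℚ))) := rfl
  rw [e]
  refine h3.mono ?_
  have hcard : (((Ioo 0 (6 * c * a)).card : ℕ) : ℝ) ≤ M := by
    have : (Ioo 0 (6 * c * a)).card ≤ M := by
      rw [Nat.card_Ioo]
      omega
    exact_mod_cast this
  have hpow : ((M : ℝ) + 6 * c) ^ M / (M.factorial : ℝ) ≤ Real.exp ((M : ℝ) + 6 * c) :=
    Real.pow_div_factorial_le_exp _ (by positivity) _
  have hexp : (12 : ℝ) * M ≤ Real.exp (12 * M) := by
    have := Real.add_one_le_exp (12 * (M : ℝ))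
    linarith
  have hinv : |(((M.factorial : ℚ)⁻¹ : ℚ) : ℝ)| = ((M.factorial : ℝ))⁻¹ := by
    push_cast
    rw [abs_of_nonneg (by positivity)]
  rw [hinv]
  calc ((M.factorial : ℝ))⁻¹ * ((((Ioo 0 (6 * c * a)).card : ℕ) : ℝ) * (12 * ((M : ℝ) + 6 * c) ^ M))
      = ((((Ioo 0 (6 * c * a)).card : ℕ) : ℝ) * 12) * (((M : ℝ) + 6 * c) ^ M / (M.factorial : ℝ)) := by
        ring
    _ ≤ ((M : ℝ) * 12) * Real.exp ((M : ℝ) + 6 * c) := by
        refine mul_le_mul ?_ hpow (by positivity) (by positivity)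
        exact mul_le_mul_of_nonneg_right hcard (by norm_num)
    _ ≤ Real.exp (12 * M) * Real.exp ((M : ℝ) + 6 * c) := by
        refine mul_le_mul_of_nonneg_right ?_ (Real.exp_pos _).le
        linarith
    _ = Real.exp (13 * (6 * c * m) + 6 * c) := by
        rw [← Real.exp_add]
        congr 1
        rw [hM]
        push_cast
        ring

theorem mat_size : ∃ C₀ : ℝ, 0 < C₀ ∧ ∀ w : ℕ, 4 ≤ w → ∀ x : ℕ, 1 ≤ x → ∀ (r : Row w x)
    (c : Col w x), |((Mat ℚ w x r c : ℚ) : ℝ)| ≤ Real.exp (C₀ * w ^ 3 * (1 + Real.log w) * x) := by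
  refine ⟨100, by norm_num, fun w hw x hx r c => ?_⟩
  have hw1 : 1 ≤ w := by omega
  have hwr : (4 : ℝ) ≤ w := by exact_mod_cast hw
  have hxr : (1 : ℝ) ≤ x := by exact_mod_cast hx
  have hlog : 0 ≤ Real.log w := Real.log_nonneg (by linarith)
  have hw3 : (4 : ℝ) * w ^ 2 ≤ w ^ 3 := by nlinarith [sq_nonneg (w : ℝ)]
  have hw3' : (16 : ℝ) * w ≤ w ^ 3 := by nlinarith [sq_nonneg (w : ℝ)]
  have hpos : (0 : ℝ) ≤ (w : ℝ) ^ 3 * Real.log w * x := by positivity
  rcases c with ⟨e, i⟩ | ⟨c, i⟩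
  · have h1 := PB_bound w x r.1.val i.val hw1 hx r.1.isLt i.isLt
    have h2 := (h1.mul (P1.X.pow e.val)).coeff r.2.val
    rw [one_pow, mul_one] at h2
    refine h2.trans (Real.exp_le_exp.2 ?_)
    have h3 : (w : ℝ) * x ≤ (w : ℝ) ^ 3 * x := by
      refine mul_le_mul_of_nonneg_right ?_ (by linarith)
      linarith
    have h4 : (0 : ℝ) ≤ (w : ℝ) ^ 3 * x := by positivity
    nlinarith
  · have hcw : c.val + 1 ≤ w := c.isLt
    have h1 := PB_bound w x r.1.val i.val hw1 hx r.1.isLt (lt_of_lt_of_le i.isLt (Nat.sub_le _ _))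
    have h1' := RR_bound (w * x) (c.val + 1) r.1.val (by omega) r.1.isLt
    have h2 := (h1.mul h1').coeff r.2.val
    rw [← Real.exp_add] at h2
    refine h2.trans (Real.exp_le_exp.2 ?_)
    have hcr : (((c.val + 1 : ℕ) : ℝ)) ≤ w := by exact_mod_cast hcw
    have hc0 : (0 : ℝ) ≤ ((c.val + 1 : ℕ) : ℝ) := by positivity
    have h3 : (w : ℝ) * x ≤ (w : ℝ) ^ 3 * x / 16 := by
      have : (16 : ℝ) * w * x ≤ (w : ℝ) ^ 3 * x := mul_le_mul_of_nonneg_right hw3' (by linarith)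
      linarith
    have h4 : (0 : ℝ) ≤ (w : ℝ) ^ 3 * x := by positivity
    have h5 : 13 * (6 * (((c.val + 1 : ℕ) : ℝ)) * ((w * x : ℕ) : ℝ)) ≤ 78 * ((w : ℝ) ^ 2 * x) := by
      push_cast at hcr hc0 ⊢
      have : ((c.val : ℝ) + 1) * ((w : ℝ) * x) ≤ (w : ℝ) * ((w : ℝ) * x) :=
        mul_le_mul_of_nonneg_right hcr (by positivity)
      nlinarith
    have h6 : 6 * (((c.val + 1 : ℕ) : ℝ)) ≤ 6 * ((w : ℝ) * x) := by
      have : (w : ℝ) ≤ (w : ℝ) * x := by nlinarith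
      linarith
    have h7 : (w : ℝ) ^ 2 * x ≤ (w : ℝ) ^ 3 * x / 4 := by
      have : (4 : ℝ) * w ^ 2 * x ≤ (w : ℝ) ^ 3 * x := mul_le_mul_of_nonneg_right hw3 (by linarith)
      linarith
    have h8 : (1 + Real.log w) * x * (w : ℝ) ^ 3 = (w : ℝ) ^ 3 * x + (w : ℝ) ^ 3 * Real.log w * x := by ring
    have h9 : 100 * (w : ℝ) ^ 3 * (1 + Real.log w) * x =
        100 * ((w : ℝ) ^ 3 * x) + 100 * ((w : ℝ) ^ 3 * Real.log w * x) := by ring
    rw [h8, h9]
    linarith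

end H22OD
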