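import Pool.Agent.H22.OD.Ind
import Pool.Agent.H22.OD.RsStep
import Pool.Agent.H83.FD.AddEst

/-!
# OD Zero: the zero estimate

`add_est` (H83/FD/AddEst.lean: bordered Casorati matrix, telescoping equation), `rs_step` (the local relation), `ind_od` (the
functions `numC c / denC c` have no nontrivial telescoping combination).
-/

namespace H22OD

open Finset Polynomial

private theorem denC_deg (c : ℕ) : (denC c).natDegree ≤ 6 * (c + 1) := by
  unfold denC
  refine (natDegree_prod_le _ _).trans ?_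
  refine (sum_le_card_nsmul _ _ 1 fun h _ => natDegree_linear_le).trans ?_
  rw [Nat.card_Ioo, smul_eq_mul]
  omega

private theorem numC_deg (c : ℕ) : (numC c).natDegree ≤ 6 * (c + 1) := by
  unfold numC
  refine natDegree_sum_le_of_forall_le _ _ fun h _ => ?_
  refine (natDegree_C_mul_le _ _).trans ?_
  refine (natDegree_prod_le _ _).trans ?_
  refine (sum_le_card_nsmul _ _ 1 fun h _ => natDegree_linear_le).trans ?_
  refine (Nat.mul_le_mul_right _ (card_erase_le)).trans ?_
  rw [Nat.card_Ioo]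
  omega

private theorem denC_ne (c : ℕ) : denC c ≠ 0 := by
  unfold denC
  rw [prod_ne_zero_iff]
  intro h _ h0
  have h1 := congrArg (fun P : ℚ[X] => P.coeff 1) h0
  simp only [coeff_add, coeff_C_mul, coeff_X_one, mul_one, coeff_C_succ, add_zero, coeff_zero] at h1
  have h2 : ((6 * (c + 1) : ℕ) : ℚ) ≠ 0 := Nat.cast_ne_zero.2 (by omega)
  exact h2 h1

theorem zero_additive (w m n W : ℕ) (hw : 1 ≤ w) (Ce B : Fin w → ℚ[X])
    (hC : ∀ e, (Ce e).natDegree < n) (hB : ∀ c, (B c).natDegree < n)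
    (hnum : (2 * w + 1) * n + 12 * w ^ 2 * (w + 1) < (m - 2 * w) * (W - w))
    (h : ∀ a < m, (PowerSeries.X : PowerSeries ℚ) ^ W ∣
      ∑ e, (((Ce e).comp (X + C (a : ℚ)) * X ^ e.val : ℚ[X]) : PowerSeries ℚ)
        + ∑ c, (((B c).comp (X + C (a : ℚ)) : ℚ[X]) : PowerSeries ℚ) * rs (c.val + 1) a) :
    (∀ e, Ce e = 0) ∧ ∀ c, B c = 0 := by
  refine Pool.Agent.H83.FD.add_est (d := 6 * w) (m := m) (W := W) Ce B hC hB (fun c => numC c) (fun c => denC c)
    (fun c => (numC_deg c).trans (by have := c.isLt; omega)) (fun c => (denC_deg c).trans (by have := c.isLt; omega))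
    (fun c => denC_ne c) (fun c a => rs (c.val + 1) a) ?_ ?_ ?_ ?_
  · intro c a _
    rw [mul_comm]
    exact rs_step c a
  · rintro β ⟨y, hy⟩
    exact ind_od w β y hy
  · intro a ha
    have h1 := h a ha
    have h2 : ∀ e : Fin w, (((Ce e).comp (X + C (a : ℚ)) * X ^ e.val : ℚ[X]) : PowerSeries ℚ) =
        Pool.Agent.H83.FD.kp ℚ (Pool.Agent.H83.FD.sh (a : ℚ) (Ce e)) * PowerSeries.X ^ (e : ℕ) := by
      intro e
      rw [Polynomial.coe_mul, Polynomial.coe_pow, Polynomial.coe_X]
      rfl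
    rw [sum_congr rfl fun e _ => h2 e] at h1
    exact h1
  · rw [Fintype.card_fin]
    have h1 : (w + w + 1) * (n - 1) ≤ (2 * w + 1) * n := Nat.mul_le_mul (by omega) (by omega)
    have h2 : (w + w) * w * (6 * w) ≤ 12 * w ^ 2 * (w + 1) := by nlinarith [sq_nonneg w]
    have h3 : m - (w + w) = m - 2 * w := by omega
    rw [h3]
    omega

end H22OD
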